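import Pool.Agent.Lib.MP_b2f51a_al.Split.VacL

/-! The Casimir operator on the Fock space of level `l`. -/

noncomputable section

namespace Pool.Agent.Lib.MP_b2f51a_al.Lv

open Finset

variable {l : ℕ}

/-- The Cartan currents. -/
def HF (l : ℕ) (n : ℤ) : Module.End ℂ (Fk l) := cm (JF l true n) (JF l false 0)

lemma HF_zero : HF l 0 = Dg (chg true) := hg_one

lemma cm_EF {a b : ℤ} (h : a + b ≠ 0) : cm (JF l true a) (JF l false b) = HF l (a + b) :=
  JF_shift true a b (a + b) 0 (by ring) h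

lemma cm_FE {a b : ℤ} (h : a + b ≠ 0) : cm (JF l false b) (JF l true a) = -HF l (a + b) := by
  rw [cm_skew, cm_EF h]

lemma cm_F1E : cm (JF l false 1) (JF l true (-1)) = (l : ℂ) • 1 - HF l 0 := by
  rw [HF_zero]
  exact hg_zero

lemma cm_HE (a b : ℤ) : cm (HF l a) (JF l true b) = (2 : ℂ) • JF l true (a + b) := by
  rw [cm_skew, HF]
  have := JF_cubic (l := l) true b a 0
  rw [Bool.not_true] at this
  rw [this, show b + a + 0 = a + b by ring]
  module

lemma cm_HF (a b : ℤ) : cm (HF l a) (JF l false b) = (-2 : ℂ) • JF l false (a + b) := by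
  rw [cm_skew, HF]
  have := (fockRep l).cubic_f' b a 0
  change cm (JF l false b) (cm (JF l true a) (JF l false 0)) = (2 : ℂ) • JF l false (b + a + 0)
    at this
  rw [this, show b + a + 0 = a + b by ring]
  module

lemma cm_E0F (n : ℤ) : cm (JF l true 0) (JF l false n) = HF l n := by
  by_cases h : n = 0
  · subst h; rfl
  · rw [cm_EF (by simpa using h), zero_add]

/-- One term of the normally ordered sum. -/
def RR (l : ℕ) (n : ℤ) : Module.End ℂ (Fk l) :=
  JF l true (-n) * JF l false n + JF l false (-n) * JF l true n +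
    (1 / 2 : ℂ) • (HF l (-n) * HF l n)

/-- The boundary term. -/
def TT (l : ℕ) (n : ℤ) : Module.End ℂ (Fk l) :=
  JF l true (-n - 1) * HF l n - HF l (-n - 1) * JF l true n

/-- The zero mode part. -/
def Om (l : ℕ) : Module.End ℂ (Fk l) :=
  JF l false 0 * JF l true 0 + (1 / 4 : ℂ) • (HF l 0 * HF l 0) + (1 / 2 : ℂ) • HF l 0

/-- The truncated Casimir operator. -/
def CC (l M : ℕ) : Module.End ℂ (Fk l) :=
  ((l : ℂ) + 2) • Dg eng - Om l - ∑ n ∈ range M, RR l (n + 1)

lemma CC_succ (M : ℕ) : CC l (M + 1) = CC l M - RR l (M + 1) := by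
  rw [CC, CC, sum_range_succ]
  abel

lemma RR_F (n : ℤ) : cm (RR l n) (JF l false 0) = 0 := by
  have h1 : ∀ a, cm (JF l true a) (JF l false 0) = HF l a := fun _ => rfl
  simp only [RR, cm_add_left, cm_mul_left, cm_smul_left, JF_comm, h1, cm_HF, add_zero,
    mul_smul_comm, smul_mul_assoc, mul_zero, zero_mul]
  module

lemma Om_F : cm (Om l) (JF l false 0) = 0 := by
  have h1 : ∀ a, cm (JF l true a) (JF l false 0) = HF l a := fun _ => rfl
  have h2 : HF l 0 * JF l false 0 = JF l false 0 * HF l 0 + (-2 : ℂ) • JF l false 0 := by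
    have := cm_HF (l := l) 0 0
    rw [add_zero] at this
    rw [← this, cm]
    abel
  simp only [Om, cm_add_left, cm_mul_left, cm_smul_left, JF_comm, h1, cm_HF, add_zero,
    mul_smul_comm, smul_mul_assoc, zero_mul, h2]
  module

lemma CC_F (M : ℕ) : cm (CC l M) (JF l false 0) = 0 := by
  induction M with
  | zero =>
    rw [CC, sum_range_zero, sub_zero, cm_sub_left, cm_smul_left, eng_JF, Om_F]
    simp
  | succ M ih => rw [CC_succ, cm_sub_left, ih, RR_F, sub_zero]

lemma RR_E (n : ℤ) (hn : -1 + -n ≠ 0) : cm (RR l n) (JF l true (-1)) =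
    JF l true (-n) * cm (JF l false n) (JF l true (-1)) + HF l (-n) * JF l true (n - 1) + TT l n := by
  simp only [RR, TT, cm_add_left, cm_mul_left, cm_smul_left, JF_comm, cm_FE hn, cm_HE, add_zero,
    mul_smul_comm, smul_mul_assoc, mul_zero, zero_mul, neg_mul]
  rw [show -1 + -n = -n - 1 by ring, show n + -1 = n - 1 by ring, show -n + -1 = -n - 1 by ring]
  module

lemma Om_E : cm (Om l) (JF l true (-1)) = TT l 0 + (2 : ℂ) • JF l true (-1) := by
  have h2 : HF l 0 * JF l true (-1) = JF l true (-1) * HF l 0 + (2 : ℂ) • JF l true (-1) := by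
    have := cm_HE (l := l) 0 (-1)
    rw [zero_add] at this
    rw [← this, cm]
    abel
  have h3 : cm (JF l false 0) (JF l true (-1)) = -HF l (-1) := by
    rw [cm_FE (by norm_num)]
    norm_num
  simp only [Om, TT, cm_add_left, cm_mul_left, cm_smul_left, JF_comm, h3, cm_HE, zero_add,
    mul_smul_comm, smul_mul_assoc, mul_zero, h2, neg_zero, zero_sub, neg_mul]
  module

lemma CC_E (M : ℕ) : cm (CC l (M + 1)) (JF l true (-1)) = -TT l (M + 1) := by
  induction M with
  | zero =>
    rw [CC_succ, CC, sum_range_zero, sub_zero, cm_sub_left, cm_sub_left, cm_smul_left, eng_JF,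
      Om_E, RR_E _ (by norm_num)]
    simp only [Nat.cast_zero, zero_add, cm_F1E, sub_self, TT, neg_zero, zero_sub, mul_sub,
      mul_smul_comm, mul_one]
    push_cast
    module
  | succ M ih =>
    rw [CC_succ, cm_sub_left, ih, RR_E _ (by push_cast; omega), cm_FE (by push_cast; omega)]
    simp only [TT]
    push_cast
    rw [show -1 + ((M : ℤ) + 1 + 1) = M + 1 by ring, show (M : ℤ) + 1 + 1 - 1 = M + 1 by ring,
      show -((M : ℤ) + 1) - 1 = -(M + 1 + 1) by ring, mul_neg]
    abel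

lemma JF_smooth (x : Fk l) : ∃ N : ℕ, ∀ n : ℤ, (N : ℤ) ≤ n → ∀ s, JF l s n x = 0 := by
  obtain ⟨N, hN⟩ := smooth x
  refine ⟨2 * N + 1, fun n hn s => ?_⟩
  rw [JF, lsum_apply_of (locFin_At s n) _ ∅, sum_empty]
  intro p hp
  refine absurd ?_ hp
  by_cases h : (N : ℤ) < p.2
  · rw [At, Module.End.mul_apply, (hN _).1 h, map_zero]
  · rw [At_eq, LinearMap.neg_apply, Module.End.mul_apply,
      (hN _).2 (by push_cast at hn ⊢; omega), map_zero, neg_zero]

lemma HF_apply (n : ℤ) (x : Fk l) :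
    HF l n x = JF l true 0 (JF l false n x) - JF l false n (JF l true 0 x) := by
  rw [← cm_E0F]
  rfl

lemma TT_smooth (x : Fk l) : ∃ N : ℕ, ∀ n : ℤ, (N : ℤ) ≤ n → TT l n x = 0 := by
  obtain ⟨N1, h1⟩ := JF_smooth x
  obtain ⟨N2, h2⟩ := JF_smooth (JF l true 0 x)
  refine ⟨N1 + N2, fun n hn => ?_⟩
  push_cast at hn
  simp only [TT, LinearMap.sub_apply, Module.End.mul_apply, HF_apply n, h1 n (by omega),
    h2 n (by omega), map_zero, sub_zero]

/-- The vectors on which the Casimir operator acts by the scalar `-c`. -/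
def CasK (l : ℕ) (c : ℂ) : Submodule ℂ (Fk l) where
  carrier := {x | ∃ N, ∀ M, N ≤ M → CC l M x + c • x = 0}
  zero_mem' := ⟨0, fun _ _ => by simp⟩
  add_mem' := by
    rintro x y ⟨N1, h1⟩ ⟨N2, h2⟩
    refine ⟨N1 + N2, fun M hM => ?_⟩
    rw [map_add, smul_add, add_add_add_comm, h1 M (by omega), h2 M (by omega), add_zero]
  smul_mem' := by
    rintro a x ⟨N, h⟩
    refine ⟨N, fun M hM => ?_⟩
    rw [map_smul, smul_comm c, ← smul_add, h M hM, smul_zero]

lemma cm_apply {M : Type*} [AddCommGroup M] [Module ℂ M] (A B : Module.End ℂ M) (x : M) :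
    A (B x) = B (A x) + cm A B x := by
  simp [cm]

lemma CasK_f {c : ℂ} {x : Fk l} (hx : x ∈ CasK l c) (i : Fin 2) :
    (fockRep l).rho (f i) x ∈ CasK l c := by
  obtain ⟨N, h⟩ := hx
  rw [LoopRep.rho_f]
  fin_cases i
  · obtain ⟨N', h'⟩ := TT_smooth x
    refine ⟨N + N' + 1, fun M hM => ?_⟩
    obtain ⟨M, rfl⟩ : ∃ M', M = M' + 1 := ⟨M - 1, by omega⟩
    change CC l (M + 1) (JF l true (-1) x) + c • JF l true (-1) x = 0
    rw [cm_apply (CC l (M + 1)), CC_E, LinearMap.neg_apply, h' _ (by omega), neg_zero, add_zero,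
      ← map_smul, ← map_add, h _ (by omega), map_zero]
  · refine ⟨N, fun M hM => ?_⟩
    change CC l M (JF l false 0 x) + c • JF l false 0 x = 0
    rw [cm_apply (CC l M), CC_F, LinearMap.zero_apply, add_zero, ← map_smul, ← map_add, h _ hM,
      map_zero]

lemma CasK_rho {c : ℂ} {lam : Fin 2 → ℤ} {v : Fk l} (hv : IsHW (fockRep l).rho lam v)
    (h0 : v ∈ CasK l c) (u : U) : (fockRep l).rho u v ∈ CasK l c := by
  obtain ⟨j, hj⟩ := hv.exists_Hw u
  generalize (fockRep l).rho u v = x at hj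
  induction j generalizing x with
  | zero =>
    obtain ⟨a, rfl⟩ := Submodule.mem_span_singleton.1 hj
    exact Submodule.smul_mem _ _ h0
  | succ j ih =>
    exact Hw_ind (X := LinearMap.id) _ ih (fun i y hy => CasK_f (ih y hy) i) x hj

section adj

variable {A B C D : Module.End ℂ (Fk l)}

lemma ip_sub_right (x y z : Fk l) : ip x (y - z) = ip x y - ip x z := by
  rw [sub_eq_add_neg, ip_add_right, ← neg_one_smul ℂ z, ip_smul_right]
  ring

lemma ip_sub_left (x y z : Fk l) : ip (x - y) z = ip x z - ip y z := by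
  rw [← ip_conj, ip_sub_right, map_sub, ip_conj, ip_conj]

lemma adj_add (h : Adj A B) (h' : Adj C D) : Adj (A + C) (B + D) := fun x y => by
  rw [LinearMap.add_apply, LinearMap.add_apply, ip_add_left, ip_add_right, h, h']

lemma adj_sub (h : Adj A B) (h' : Adj C D) : Adj (A - C) (B - D) := fun x y => by
  rw [LinearMap.sub_apply, LinearMap.sub_apply, ip_sub_left, ip_sub_right, h, h']

lemma adj_smul (h : Adj A B) {c : ℂ} (hc : (starRingEnd ℂ) c = c) : Adj (c • A) (c • B) :=
  fun x y => by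
    rw [LinearMap.smul_apply, LinearMap.smul_apply, ip_smul_left, ip_smul_right, h, hc]

end adj

lemma adj_Dg (φ : Ix l → ℤ) : Adj (Dg φ) (Dg φ) := by
  refine adj_of_bv fun D D' => ?_
  rw [Dg_bv, Dg_bv, ip_smul_left, ip_smul_right, ip_bv_left, bv_apply]
  split_ifs with h
  · subst h
    simp
  · simp

lemma adj_EF (n : ℤ) : Adj (JF l true (-n)) (JF l false n) := by
  simpa using adj_JF (l := l) true (-n)

lemma adj_FE (n : ℤ) : Adj (JF l false (-n)) (JF l true n) := by
  simpa using adj_JF (l := l) false (-n)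

lemma adj_HF (n : ℤ) : Adj (HF l (-n)) (HF l n) := by
  have h0 : Adj (JF l true 0) (JF l false 0) := by simpa using adj_EF (l := l) 0
  rw [← cm_E0F (-n)]
  exact adj_sub (h0.mul (adj_FE n)) ((adj_FE n).mul h0)

lemma adj_CC (M : ℕ) : Adj (CC l M) (CC l M) := by
  have h0 : Adj (JF l true 0) (JF l false 0) := by simpa using adj_EF (l := l) 0
  have h1 : Adj (HF l 0) (HF l 0) := by simpa using adj_HF (l := l) 0
  have c2 : (starRingEnd ℂ) (1 / 2) = 1 / 2 := by simp [map_ofNat]
  have c4 : (starRingEnd ℂ) (1 / 4) = 1 / 4 := by simp [map_ofNat]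
  induction M with
  | zero =>
    rw [CC, sum_range_zero, sub_zero]
    exact adj_sub (adj_smul (adj_Dg _) (by simp [map_ofNat]))
      (adj_add (adj_add (h0.symm.mul h0) (adj_smul (h1.mul h1) c4)) (adj_smul h1 c2))
  | succ M ih =>
    rw [CC_succ]
    exact adj_sub ih (adj_add (adj_add ((adj_EF _).mul (adj_EF _).symm)
      ((adj_FE _).mul (adj_FE _).symm)) (adj_smul ((adj_HF _).mul (adj_HF _).symm) c2))

end Pool.Agent.Lib.MP_b2f51a_al.Lv
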