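import Pool.Agent.Lib.MP_b2f51a_al.KZ.Vec
import Pool.Agent.Lib.MP_b2f51a_al.Split.Univ

/-! The integral extension attached to a vector that is singular modulo the lattice. -/

open scoped TensorProduct

noncomputable section

namespace Pool.Agent.Lib.MP_b2f51a_al.KZ

universe u

variable {l m n k : ℕ}

lemma mem_VZ {lam : Fin 2 → ℤ} {x : L lam} : x ∈ VZ lam ↔ ∃ u ∈ kostantForm, u • hwv lam = x := by
  rw [VZ, Submodule.mem_span_singleton]
  exact ⟨fun ⟨u, hu⟩ => ⟨u.1, u.2, hu⟩, fun ⟨u, h1, h2⟩ => ⟨⟨u, h1⟩, h2⟩⟩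

instance (lam : Fin 2 → ℤ) : Module.IsTorsionFree ℤ (VZ lam) := by
  refine Module.IsTorsionFree.of_smul_eq_zero fun n x h => ?_
  have h1 : (n : ℂ) • (x : L lam) = 0 := by
    rw [Int.cast_smul_eq_zsmul]; exact congrArg Subtype.val h
  rcases smul_eq_zero.1 h1 with h2 | h2
  · left; exact_mod_cast h2
  · right; exact Subtype.ext h2

/-- The ambient module. -/
abbrev LL (l m n : ℕ) : Type := L (wt l m) × L (wt l n)

/-- The integral extension. -/
def EZ (n : ℕ) (y : L (wt l m)) : Submodule UZ (LL l m n) :=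
  Submodule.span UZ {(hwv _, 0), (y, hwv _)}

variable {y : L (wt l m)}

lemma mem_EZ {x : LL l m n} :
    x ∈ EZ n y ↔ ∃ a ∈ kostantForm, ∃ b ∈ kostantForm, (a • hwv _ + b • y, b • hwv _) = x := by
  rw [EZ, Submodule.mem_span_pair]
  have e : ∀ a b : UZ, a • ((hwv _, 0) : LL l m n) + b • (y, hwv _) =
      (a.1 • hwv _ + b.1 • y, b.1 • hwv _) := by
    intro a b
    refine Prod.ext rfl ?_
    change a.1 • (0 : L (wt l n)) + b.1 • hwv _ = _
    rw [smul_zero, zero_add]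
  exact ⟨fun ⟨a, b, h⟩ => ⟨a.1, a.2, b.1, b.2, (e a b).symm.trans h⟩,
    fun ⟨a, ha, b, hb, h⟩ => ⟨⟨a, ha⟩, ⟨b, hb⟩, (e _ _).trans h⟩⟩

/-- The inclusion. -/
def iZ (n : ℕ) (y : L (wt l m)) : VZ (wt l m) →ₗ[UZ] EZ n y :=
  LinearMap.codRestrict (EZ n y) (LinearMap.inl UZ _ _ ∘ₗ (VZ _).subtype) fun x => by
    obtain ⟨u, hu, h⟩ := mem_VZ.1 x.2
    exact mem_EZ.2 ⟨u, hu, 0, zero_mem _, by simp [h]⟩

/-- The projection. -/
def pZ (n : ℕ) (y : L (wt l m)) : EZ n y →ₗ[UZ] VZ (wt l n) :=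
  LinearMap.codRestrict (VZ _) (LinearMap.snd UZ _ _ ∘ₗ (EZ n y).subtype) fun x => by
    obtain ⟨a, -, b, hb, h⟩ := mem_EZ.1 x.2
    exact mem_VZ.2 ⟨b, hb, congrArg Prod.snd h⟩

lemma iZ_inj : Function.Injective (iZ n y) := by
  intro x y h
  exact Subtype.ext (congrArg (fun z : EZ n _ => z.1.1) h)

lemma pZ_surj : Function.Surjective (pZ n y) := by
  intro x
  obtain ⟨u, hu, h⟩ := mem_VZ.1 x.2
  exact ⟨⟨_, mem_EZ.2 ⟨0, zero_mem _, u, hu, rfl⟩⟩, Subtype.ext h⟩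

lemma wtZ_of {lam mu : Fin 2 → ℤ} {x : L lam} (hx : ∀ i, h i • x = (mu i : ℂ) • x) : WtZ mu x := by
  intro i k
  have h3 := binom_apply (h := act (L lam) (h i)) (hx i) k
  rw [← map_binom, ch, Int.cast_smul_eq_zsmul] at h3
  exact h3

lemma key_lift (hm : m ≤ l) (hn : n ≤ l) (hw : ∀ i, h i • y = (wt l n i : ℂ) • y)
    (he : ∀ i a, 0 < a → eZ i a • y ∈ VZ (wt l m)) (u : UZ) (hu : u • hwv (wt l n) = 0) :
    u • y ∈ VZ (wt l m) := by
  have h1 : IntZ (L (wt l m) ⧸ VZ (wt l m)) := by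
    intro x i
    obtain ⟨x, rfl⟩ := (VZ (wt l m)).mkQ_surjective x
    obtain ⟨K, hK⟩ := L_int hm x i
    exact ⟨K, fun k hk => ⟨by rw [← map_smul, (hK k hk).1, map_zero],
      by rw [← map_smul, (hK k hk).2, map_zero]⟩⟩
  have h2 : HwZ (wt l n) ((VZ (wt l m)).mkQ y) :=
    ⟨fun i k => by rw [← map_smul, wtZ_of hw i k, map_zsmul],
      fun i a ha => by
        rw [← map_smul]
        exact (Submodule.Quotient.mk_eq_zero _).2 (he i a ha)⟩
  have h3 := univ h1 hn h2 u hu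
  rw [← map_smul] at h3
  exact (Submodule.Quotient.mk_eq_zero _).1 h3

lemma exact_Z (hm : m ≤ l) (hn : n ≤ l) (hw : ∀ i, h i • y = (wt l n i : ℂ) • y)
    (he : ∀ i a, 0 < a → eZ i a • y ∈ VZ (wt l m)) : Function.Exact (iZ n y) (pZ n y) := by
  intro x
  constructor
  · intro h
    obtain ⟨a, ha, b, hb, hx⟩ := mem_EZ.1 x.2
    have h1 : x.1.2 = 0 := congrArg Subtype.val h
    have h2 : b • hwv (wt l n) = 0 := (congrArg Prod.snd hx).trans h1
    have h4 := key_lift hm hn hw he ⟨b, hb⟩ h2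
    refine ⟨⟨x.1.1, ?_⟩, Subtype.ext (Prod.ext rfl h1.symm)⟩
    rw [← hx]
    exact add_mem (mem_VZ.2 ⟨a, ha, rfl⟩) h4
  · rintro ⟨y, rfl⟩
    rfl

/-- An embedding of the ambient module in two copies of the Fock space. -/
structure Emb (l m n : ℕ) where
  PP : LL l m n →ₗ[ℂ] Lv.Fk l × Lv.Fk l
  inj : Function.Injective PP
  smul : ∀ (u : U) x, PP (u • x) = ((Lv.fockRep l).prod (Lv.fockRep l)).rho u (PP x)

/-- The derivation. -/
def dd (l k : ℕ) : Module.End ℂ (Lv.Fk l × Lv.Fk l) :=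
  (-Lv.Dg Lv.eng).prodMap (-Lv.Dg Lv.eng - (k : ℂ) • 1)

lemma dd_J (s : Bool) (a : ℤ) : cm (dd l k) (((Lv.fockRep l).prod (Lv.fockRep l)).J s a) =
    (a : ℂ) • ((Lv.fockRep l).prod (Lv.fockRep l)).J s a := by
  have h1 : cm (-Lv.Dg Lv.eng) (Lv.JF l s a) = (a : ℂ) • Lv.JF l s a := by
    rw [cm_neg_left, Lv.eng_JF, neg_smul, neg_neg]
  have h2 : cm (-Lv.Dg Lv.eng - (k : ℂ) • 1) (Lv.JF l s a) = (a : ℂ) • Lv.JF l s a := by
    rw [cm_sub_left, h1, cm_smul_left]; simp [cm]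
  exact LinearMap.ext fun x => Prod.ext (LinearMap.congr_fun h1 x.1) (LinearMap.congr_fun h2 x.2)

lemma dd_e (i : Fin 2) : cm (dd l k) (((Lv.fockRep l).prod (Lv.fockRep l)).eg i) =
    (if i = 0 then (1 : ℂ) else 0) • ((Lv.fockRep l).prod (Lv.fockRep l)).eg i := by
  fin_cases i
  · simpa [LoopRep.eg] using dd_J (l := l) (k := k) false 1
  · simpa [LoopRep.eg] using dd_J (l := l) (k := k) true 0

lemma dd_f (i : Fin 2) : cm (dd l k) (((Lv.fockRep l).prod (Lv.fockRep l)).fg i) =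
    (if i = 0 then (-1 : ℂ) else 0) • ((Lv.fockRep l).prod (Lv.fockRep l)).fg i := by
  fin_cases i
  · simpa [LoopRep.fg] using dd_J (l := l) (k := k) true (-1)
  · simpa [LoopRep.fg] using dd_J (l := l) (k := k) false 0

lemma dd_h (i : Fin 2) : cm (dd l k) (((Lv.fockRep l).prod (Lv.fockRep l)).hg i) = 0 := by
  rw [LoopRep.hg, cm_hom (dd_e i) (dd_f i)]
  split_ifs <;> simp

/-- Degree. -/
def Deg (P : Emb l m n) (k : ℕ) (a : ℤ) (x : LL l m n) : Prop :=
  dd l k (P.PP x) = (a : ℂ) • P.PP x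

variable {P : Emb l m n}

lemma Deg.e {a : ℤ} {x : LL l m n} (hx : Deg P k a x) (i : Fin 2) (j : ℕ) :
    Deg P k (a + if i = 0 then (j : ℤ) else 0) (dpow (e i) j • x) := by
  rw [Deg, P.smul, map_dpow, LoopRep.rho_e, wt_dpow (dd_e i) hx]
  split_ifs <;> simp

lemma Deg.f {a : ℤ} {x : LL l m n} (hx : Deg P k a x) (i : Fin 2) (j : ℕ) :
    Deg P k (a - if i = 0 then (j : ℤ) else 0) (dpow (f i) j • x) := by
  rw [Deg, P.smul, map_dpow, LoopRep.rho_f, wt_dpow (dd_f i) hx]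
  split_ifs <;> simp [sub_eq_add_neg]

lemma Deg.h {a : ℤ} {x : LL l m n} (hx : Deg P k a x) (i : Fin 2) (j : ℕ) :
    Deg P k a (binom (h i) j • x) := by
  have h1 : Commute (dd l k) (((Lv.fockRep l).prod (Lv.fockRep l)).hg i) := sub_eq_zero.1 (dd_h i)
  have h2 : Commute (dd l k) (binom (((Lv.fockRep l).prod (Lv.fockRep l)).hg i) j) := by
    refine Commute.smul_right ?_ _
    generalize descPochhammer ℂ j = q
    induction q using Polynomial.induction_on' with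
    | add p q hp hq => rw [map_add]; exact hp.add_right hq
    | monomial m c =>
      rw [Polynomial.aeval_monomial]
      exact Commute.mul_right (Algebra.commutes c (dd l k)).symm (h1.pow_right m)
  rw [Deg, P.smul, map_binom, LoopRep.rho_h, ← Module.End.mul_apply, h2.eq,
    Module.End.mul_apply, hx, map_smul]

/-- The graded pieces of the integral extension. -/
def gZ (P : Emb l m n) (k : ℕ) (y : L (wt l m)) (a : ℤ) : Submodule ℤ (EZ n y) where
  carrier := {x | Deg P k a x}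
  zero_mem' := by simp [Deg]
  add_mem' := fun {x x'} ha hb => by
    change dd l k (P.PP (x + x')) = (a : ℂ) • P.PP (x + x')
    rw [map_add, map_add, ha, hb, smul_add]
  smul_mem' := fun c x ha => by
    change dd l k (P.PP (c • x)) = (a : ℂ) • P.PP (c • x)
    rw [map_zsmul, map_zsmul, ha, smul_comm]

lemma gZ_internal {a b : ℤ} (h1 : Deg P k a (hwv _, 0)) (h2 : Deg P k b (y, hwv _)) :
    DirectSum.IsInternal (gZ P k y) := by
  apply DirectSum.isInternal_submodule_of_iSupIndep_of_iSup_eq_top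
  · intro c
    rw [Submodule.disjoint_def]
    intro x h1 h2
    have ind := (Module.End.eigenspaces_iSupIndep (dd l k)).comp (Int.cast_injective (α := ℂ)) c
    let Ψ : EZ n y →ₗ[ℤ] Lv.Fk l × Lv.Fk l :=
      (P.PP.toAddMonoidHom.comp (EZ n y).subtype.toAddMonoidHom).toIntLinearMap
    have h3 : (⨆ j, ⨆ _ : j ≠ c, gZ P k y j) ≤ ((⨆ j : ℤ, ⨆ _ : j ≠ c,
        Module.End.eigenspace (dd l k) (j : ℂ)).restrictScalars ℤ).comap Ψ := by
      refine iSup₂_le fun j hj z hz => ?_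
      exact Submodule.mem_iSup_of_mem j
        (Submodule.mem_iSup_of_mem hj (Module.End.mem_eigenspace_iff.2 hz))
    have h4 := Submodule.disjoint_def.1 ind (P.PP x) (Module.End.mem_eigenspace_iff.2 h1) (h3 h2)
    exact Subtype.ext (P.inj (h4.trans (map_zero P.PP).symm))
  · have := closure_top {(hwv _, 0), (y, hwv _)} (fun x => ∃ c, Deg P k c x)
      (by rintro x (rfl | rfl); exacts [⟨_, h1⟩, ⟨_, h2⟩])
      (fun i j x ⟨c, hc⟩ => ⟨_, hc.e i j⟩) (fun i j x ⟨c, hc⟩ => ⟨_, hc.f i j⟩)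
      (fun i j x ⟨c, hc⟩ => ⟨_, hc.h i j⟩)
    rw [eq_top_iff]
    rintro x -
    have h1 : AddSubgroup.closure {x : EZ n y | ∃ c, Deg P k c x} ≤
        (⨆ c, gZ P k y c).toAddSubgroup := by
      rw [AddSubgroup.closure_le]
      rintro z ⟨c, hc⟩
      exact Submodule.mem_iSup_of_mem c hc
    exact h1 (this.ge trivial)

lemma EZ_weight (hw : ∀ i, h i • y = (wt l n i : ℂ) • y) :
    AddSubgroup.closure {x : EZ n y | ∃ mu : Fin 2 → ℤ, mu 0 + mu 1 = l ∧
      ∀ i k, hZ i k • x = (Ring.choose (mu i) k : ℤ) • x} = ⊤ := by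
  have hc : ∀ j, cartan 0 j + cartan 1 j = 0 := by intro j; fin_cases j <;> simp [cartan]
  have := closure_top {(hwv _, 0), (y, hwv _)}
    (fun x : LL l m n => ∃ mu : Fin 2 → ℤ, mu 0 + mu 1 = l ∧
      ∀ i, act (LL l m n) (h i) x = (mu i : ℂ) • x) ?_ ?_ ?_ ?_
  · refine eq_top_iff.2 (this.ge.trans (AddSubgroup.closure_mono ?_))
    rintro x ⟨mu, h1, h2⟩
    refine ⟨mu, h1, fun i k => Subtype.ext ?_⟩
    have h3 := binom_apply (h2 i) k
    rw [← map_binom, ch, Int.cast_smul_eq_zsmul] at h3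
    exact h3
  · rintro x (rfl | rfl)
    · exact ⟨wt l m, by simp [wt], fun i => Prod.ext ((hw_L _).h i) (by simp)⟩
    · exact ⟨wt l n, by simp [wt], fun i => Prod.ext (hw i) ((hw_L _).h i)⟩
  · rintro j k x ⟨mu, h1, h2⟩
    refine ⟨fun i => mu i + k * cartan i j, by linear_combination h1 + k * hc j, fun i => ?_⟩
    have h3 : cm (act (LL l m n) (h i)) (act (LL l m n) (e j)) =
        ((cartan i j : ℤ) : ℂ) • act (LL l m n) (e j) := by
      rw [← map_cm, he_U, map_smul]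
    have h4 := wt_dpow h3 (h2 i) k
    rw [← map_dpow] at h4
    push_cast; exact h4
  · rintro j k x ⟨mu, h1, h2⟩
    refine ⟨fun i => mu i + k * -cartan i j, by linear_combination h1 - k * hc j, fun i => ?_⟩
    have h3 : cm (act (LL l m n) (h i)) (act (LL l m n) (f j)) =
        (-((cartan i j : ℤ) : ℂ)) • act (LL l m n) (f j) := by
      rw [← map_cm, hf_U, map_smul]
    have h4 := wt_dpow h3 (h2 i) k
    rw [← map_dpow] at h4
    push_cast; exact h4
  · rintro j k x ⟨mu, h1, h2⟩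
    refine ⟨mu, h1, fun i => ?_⟩
    have h3 := binom_apply (h2 j) k
    rw [← map_binom] at h3
    change act (LL l m n) (h i) (act (LL l m n) (binom (h j) k) x) =
      _ • act (LL l m n) (binom (h j) k) x
    rw [h3, map_smul, h2, smul_comm]

lemma EZ_nil (hm : m ≤ l) (hn : n ≤ l) (x : EZ n y) (i : Fin 2) :
    ∃ K : ℕ, ∀ k, K ≤ k → fZ i k • x = 0 := by
  obtain ⟨a, ha⟩ := L_int hm x.1.1 i
  obtain ⟨b, hb⟩ := L_int hn x.1.2 i
  exact ⟨a + b, fun k hk => Subtype.ext (Prod.ext (ha k (by omega)).2 (hb k (by omega)).2)⟩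

lemma EZ_bdd (x : EZ n y) : ∃ K : ℕ, ∀ w : List (Fin 2 × ℕ), K ≤ (w.map Prod.snd).sum →
    (w.map fun p => eZ p.1 p.2).prod • x = 0 := by
  obtain ⟨j1, h1⟩ := L_Hw _ x.1.1
  obtain ⟨j2, h2⟩ := L_Hw _ x.1.2
  refine ⟨j1 + j2 + 1, fun w hw => Subtype.ext ?_⟩
  have e : ((w.map fun p => eZ p.1 p.2).prod : UZ).1 =
      (w.map fun p => dpow (e p.1) p.2).prod := by
    clear hw
    induction w with
    | nil => rfl
    | cons p w ih => rw [List.map_cons, List.map_cons, List.prod_cons, List.prod_cons, ← ih]; rfl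
  change ((w.map fun p => eZ p.1 p.2).prod : UZ).1 • (x : LL l m n) = 0
  rw [e]
  exact Prod.ext (((hw_L _).prod_e w j1 _ h1).1 (by omega))
    (((hw_L _).prod_e w j2 _ h2).1 (by omega))

/-- The second generator as an element of the integral extension. -/
def yE (n : ℕ) (y : L (wt l m)) : EZ n y := ⟨(y, hwv _), Submodule.subset_span (by simp)⟩

lemma hwZ_vZ (lam : Fin 2 → ℤ) : HwZ lam (vZ lam) :=
  ⟨fun i k => Subtype.ext ((hwZ_hwv lam).wt i k),
    fun i a ha => Subtype.ext ((hwZ_hwv lam).e i a ha)⟩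

lemma VZ_ind {lam : Fin 2 → ℤ} (B : AddSubgroup (VZ lam)) (h0 : vZ lam ∈ B)
    (h1 : ∀ i a, 0 < a → ∀ x ∈ B, fZ i a • x ∈ B) (x : VZ lam) : x ∈ B := by
  obtain ⟨u, rfl⟩ := exists_smul_vZ x
  refine span_le (hwZ_vZ lam) B h0 (fun i a x hx => ?_) u
  rcases Nat.eq_zero_or_pos a with rfl | ha
  · rwa [fZ_zero, one_smul]
  · exact h1 i a ha x hx

/-- The splitting is obstructed by an invariant form. -/
theorem not_split (F : Type u) [Field F] (p : ℕ) [CharP F p] (hm : m ≤ l) (hn : n ≤ l)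
    (hw : ∀ i, h i • y = (wt l n i : ℂ) • y) (he : ∀ i a, 0 < a → eZ i a • y ∈ VZ (wt l m))
    (β : VZ (wt l m) → VZ (wt l m) →ₗ[ℤ] ℤ) (γ : VZ (wt l m) →ₗ[ℤ] ℤ)
    (βadd : ∀ x x', β (x + x') = β x + β x')
    (βf : ∀ i a x x', β (fZ i a • x) x' = β x (eZ i a • x'))
    (γf : ∀ i a (ha : 0 < a) x, γ (fZ i a • x) = β x ⟨_, he i a ha⟩)
    (βv : ∀ i a, 0 < a → ∀ x, β (vZ _) (fZ i a • x) = 0) (β0 : β (vZ _) (vZ _) = 1)
    (γ0 : γ (vZ _) = 0) (w : VZ (wt l m))
    (hw1 : ∀ x, β w x = p * γ x) (hw2 : β (vZ _) w = 0) (hw3 : ¬ (p : ℤ) ∣ γ w) :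
    ¬ ∃ s : Weyl F (wt l n) →ₗ[UF F] BaseExt F (EZ n y),
      bmap F (pZ n y) ∘ₗ s = LinearMap.id := by
  rintro ⟨s, hs⟩
  have ex := exact_Z hm hn hw he
  have h1 : bmap F (pZ n y) (s (weylGen F _) - tm F 1 (yE n y)) = 0 := by
    rw [map_sub, ← LinearMap.comp_apply, hs, bmap_tm, sub_eq_zero]; rfl
  obtain ⟨q, hq⟩ := (bmap_exact F ex pZ_surj _).1 h1
  have h2 : ∀ i a (ha : 0 < a), tens (1 : F) (eZ i a) • q = -tm F 1 ⟨_, he i a ha⟩ := by
    intro i a ha
    apply bmap_inj F ex iZ_inj pZ_surj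
    have h3 : eZ i a • yE n y = iZ n y ⟨_, he i a ha⟩ :=
      Subtype.ext (Prod.ext rfl ((hwZ_hwv _).e i a ha))
    rw [map_smul, hq, smul_sub, ← map_smul, weylGen_e _ i a ha, map_zero, one_smul_tm, h3, map_neg,
      bmap_tm, zero_sub]
  have h3 : ∀ x x' (q : BaseExt F (VZ (wt l m))),
      bfl F (β (x + x')) q = bfl F (β x) q + bfl F (β x') q := by
    intro x x' q
    induction q using be_ind with
    | h0 => simp
    | hadd q q' h h' => simp only [map_add, h, h']; ring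
    | ht a z => simp only [bfl_tm, βadd, LinearMap.add_apply]; push_cast; ring
  have h4 : ∀ i a x (q : BaseExt F (VZ (wt l m))),
      bfl F (β (fZ i a • x)) q = bfl F (β x) (tens (1 : F) (eZ i a) • q) := by
    intro i a x q
    induction q using be_ind with
    | h0 => simp
    | hadd q q' h h' => simp only [smul_add, map_add, h, h']
    | ht c z => rw [one_smul_tm, bfl_tm, bfl_tm, βf]
  have h5 : ∀ q : BaseExt F (VZ (wt l m)), bfl F (β w) q = 0 := by
    intro q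
    induction q using be_ind with
    | h0 => simp
    | hadd q q' h h' => rw [map_add, h, h', add_zero]
    | ht c z => rw [bfl_tm, hw1]; simp
  let G : VZ (wt l m) →+ F := AddMonoidHom.mk'
    (fun x => bfl F (β x) q + (γ x : F) - (β (vZ _) x : F) * bfl F (β (vZ _)) q) fun x x' => by
      simp only [h3, map_add]
      push_cast
      ring
  have h6 : ∀ x, x ∈ G.ker := by
    refine VZ_ind G.ker ?_ fun i a ha x _ => ?_
    · change bfl F (β _) q + (γ _ : F) - (β (vZ _) _ : F) * bfl F (β (vZ _)) q = 0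
      rw [β0, γ0]
      simp
    · change bfl F (β _) q + (γ _ : F) - (β (vZ _) _ : F) * bfl F (β (vZ _)) q = 0
      rw [h4, h2 i a ha, map_neg, bfl_tm, γf i a ha, βv i a ha]
      simp
  have h7 : bfl F (β w) q + (γ w : F) - (β (vZ _) w : F) * bfl F (β (vZ _)) q = 0 := h6 w
  rw [h5, hw2, Int.cast_zero, zero_mul, zero_add, sub_zero, CharP.intCast_eq_zero_iff F p] at h7
  exact hw3 h7

end Pool.Agent.Lib.MP_b2f51a_al.KZ
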