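import Pool.Agent.Lib.MP_b2f51a_al.KZ.Ext

/-! Non-split extensions of Weyl modules at all levels. -/

open scoped TensorProduct

noncomputable section

namespace Pool.Agent.Lib.MP_b2f51a_al.KZ

universe u

variable {l : ℕ}

lemma adj_dpow {A B : Module.End ℂ (Lv.Fk l)} (h : Adj A B) (k : ℕ) :
    Adj (dpow A k) (dpow B k) := by
  have : Adj (A ^ k) (B ^ k) := by
    induction k with
    | zero => intro x y; rfl
    | succ k ih => rw [pow_succ, pow_succ']; exact ih.mul h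
  intro x y
  simp only [dpow, LinearMap.smul_apply, ip_smul_left, ip_smul_right, this x y]
  simp

/-- The elements on which an additive function takes integer values. -/
def intSub {A : Type*} [AddCommGroup A] (g : A → ℂ) (hg : ∀ a b, g (a + b) = g a + g b) :
    AddSubgroup A :=
  (Int.castAddHom ℂ).range.comap (AddMonoidHom.mk' g hg)

lemma mem_intSub {A : Type*} [AddCommGroup A] {g : A → ℂ} {hg : ∀ a b, g (a + b) = g a + g b}
    {a : A} : a ∈ intSub g hg ↔ ∃ n : ℤ, g a = n :=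
  ⟨fun ⟨n, h⟩ => ⟨n, h.symm⟩, fun ⟨n, h⟩ => ⟨n, h.symm⟩⟩

lemma int_ind {lam : Fin 2 → ℤ} (g : VZ lam → ℂ) (hg : ∀ a b, g (a + b) = g a + g b)
    (h0 : ∃ n : ℤ, g (vZ lam) = n) (h1 : ∀ i a, 0 < a → ∀ x, ∃ n : ℤ, g (fZ i a • x) = n)
    (x : VZ lam) : ∃ n : ℤ, g x = n :=
  mem_intSub.1 (VZ_ind (intSub g hg) (mem_intSub.2 h0)
    (fun i a ha x _ => mem_intSub.2 (h1 i a ha x)) x)

theorem main (F : Type u) [Field F] (p : ℕ) [CharP F p] (hp : p.Prime) (h2 : 2 < p) {l m k : ℕ}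
    (hm : m + 2 ≤ l) (hk : p + (m + 2) = (l + 2) * k) :
    ∃ (E : Type u) (_ : AddCommGroup E) (_ : Module (UF F) E)
      (i : Weyl F (wt l m) →ₗ[UF F] E) (π : E →ₗ[UF F] Weyl F (wt l (m + 2))),
      IsIntegrableOfLevel F l E ∧
      (∃ g : ℤ → AddSubgroup E, IsDegreeGrading F g ∧ i (weylGen F (wt l m)) ∈ g 0 ∧
        ∃ y ∈ g (-k), π y = weylGen F (wt l (m + 2))) ∧
      Function.Injective i ∧ Function.Surjective π ∧ Function.Exact i π ∧
      ¬ ∃ s : Weyl F (wt l (m + 2)) →ₗ[UF F] E, π ∘ₗ s = LinearMap.id := by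
  obtain ⟨v, y1, hv, v1, v0, ⟨u0, hu0⟩, yd, yw, ye, yp, yv, yu⟩ := Lv.exists_y hm hp h2 hk
  obtain ⟨Pm, m1, m2, m3⟩ := Lv.exists_embed hv v1
  obtain ⟨Pn, n1, n2, n3⟩ := Lv.exists_embed (Lv.hw_nu hm) (Lv.ip_bv_self _)
  have hm' : m ≤ l := by omega
  obtain ⟨y, hy⟩ : ∃ y, Pm y = y1 := ⟨u0 • hwv _, by rw [m1, m2, hu0]⟩
  have mem : ∀ x, Pm x ∈ latt (Lv.fockRep l).rho v → x ∈ VZ (wt l m) := by
    rintro x ⟨u, hu, h⟩
    exact mem_VZ.2 ⟨u, hu, m3 (by rw [m1, m2, h])⟩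
  have me : ∀ i a (x : L (wt l m)), Pm (eZ i a • x) = dpow ((Lv.fockRep l).eg i) a (Pm x) :=
    fun i a x => (m1 (dpow (e i) a) x).trans (by rw [map_dpow, LoopRep.rho_e])
  have mf : ∀ i a (x : L (wt l m)), Pm (fZ i a • x) = dpow ((Lv.fockRep l).fg i) a (Pm x) :=
    fun i a x => (m1 (dpow (f i) a) x).trans (by rw [map_dpow, LoopRep.rho_f])
  have hw : ∀ i, h i • y = (wt l (m + 2) i : ℂ) • y := fun i => m3 (by
    rw [m1, map_smul, hy, LoopRep.rho_h, yw i])
  have he : ∀ i a, 0 < a → eZ i a • y ∈ VZ (wt l m) := fun i a ha =>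
    mem _ (by rw [me, hy]; exact ye i a ha)
  have af : ∀ i a (x x' : L (wt l m)), ip (Pm (fZ i a • x)) (Pm x') = ip (Pm x) (Pm (eZ i a • x')) :=
    fun i a x x' => by rw [mf, me, adj_dpow (Lv.adj_eg i).symm]
  have av : ∀ i a, 0 < a → ∀ x : L (wt l m), ip (Pm (hwv _)) (Pm (fZ i a • x)) = 0 :=
    fun i a ha x => by
      rw [← ip_conj, af, (hwZ_hwv _).e i a ha, map_zero, ip_zero_right, map_zero]
  have vv : ip (Pm (hwv _)) (Pm (hwv _)) = ((1 : ℤ) : ℂ) := by rw [m2, v1, Int.cast_one]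
  have vy : ip (Pm (hwv _)) (Pm y) = ((0 : ℤ) : ℂ) := by rw [m2, hy, yv, Int.cast_zero]
  have i0 := int_ind (fun x : VZ (wt l m) => ip (Pm (hwv _)) (Pm x))
      (fun a b => by rw [Submodule.coe_add, map_add, ip_add_right])
      ⟨1, vv⟩
      fun i a ha x => ⟨0, (av i a ha x).trans Int.cast_zero.symm⟩
  have i1 : ∀ x x' : VZ (wt l m), ∃ n : ℤ, ip (Pm x) (Pm x') = n := by
    intro x x'
    have := VZ_ind (⨅ x' : VZ (wt l m), intSub (fun x : VZ (wt l m) => ip (Pm x) (Pm x'))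
        fun a b => by rw [Submodule.coe_add, map_add, ip_add_left])
      (AddSubgroup.mem_iInf.2 fun x' => mem_intSub.2 (i0 x'))
      (fun i a _ x hx => AddSubgroup.mem_iInf.2 fun x' => mem_intSub.2 (by
        obtain ⟨n, hn⟩ := mem_intSub.1 (AddSubgroup.mem_iInf.1 hx (eZ i a • x'))
        exact ⟨n, (af i a x x').trans hn⟩)) x
    have h3 := mem_intSub.1 (AddSubgroup.mem_iInf.1 this x')
    exact h3
  have i2 := int_ind (fun x : VZ (wt l m) => ip (Pm x) (Pm y))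
      (fun a b => by rw [Submodule.coe_add, map_add, ip_add_left])
      ⟨0, vy⟩
      fun i a ha x => by
        obtain ⟨n, hn⟩ := i1 x ⟨_, he i a ha⟩
        exact ⟨n, (af i a x y).trans hn⟩
  choose β hβ using fun x : VZ (wt l m) => exists_int_hom
    (AddMonoidHom.mk' (fun x' : VZ (wt l m) => ip (Pm x) (Pm x')) fun a b => by
      rw [Submodule.coe_add, map_add, ip_add_right]) (i1 x)
  obtain ⟨γ, hγ⟩ := exists_int_hom
    (AddMonoidHom.mk' (fun x : VZ (wt l m) => ip (Pm x) (Pm y)) fun a b => by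
      rw [Submodule.coe_add, map_add, ip_add_left]) i2
  simp only [AddMonoidHom.mk'_apply] at hβ hγ
  have inj := Int.cast_injective (α := ℂ)
  let w : VZ (wt l m) := ⟨(p : ℂ) • y, mem _ (by rw [map_smul, hy]; exact yp)⟩
  have hwP : Pm w = (p : ℂ) • Pm y := map_smul _ _ _
  have ns := not_split F p hm' hm hw he β γ
    (fun x x' => LinearMap.ext fun z => inj (by
      rw [LinearMap.add_apply, Int.cast_add, hβ, hβ, hβ, Submodule.coe_add, map_add, ip_add_left]))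
    (fun i a x x' => inj (by rw [hβ, hβ]; exact af i a x x'))
    (fun i a ha x => inj (by rw [hγ, hβ]; exact af i a x y))
    (fun i a ha x => inj (by rw [hβ, Int.cast_zero]; exact av i a ha x))
    (inj ((hβ _ _).trans vv))
    (inj ((hγ _).trans vy)) w
    (fun x => inj (by
      rw [hβ, hwP, ip_smul_left, map_natCast, ← ip_conj, ← hγ, map_intCast]
      push_cast
      rfl))
    (inj (by
      rw [hβ, hwP, ip_smul_right, Int.cast_zero]
      exact mul_eq_zero_of_right _ (vy.trans Int.cast_zero)))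
    (by
      obtain ⟨a, b, ha, -, hab⟩ := yu
      have : b * γ w = a := inj (by
        rw [Int.cast_mul, hγ, hwP, ip_smul_left, map_natCast, hy, hab])
      exact fun h => ha (this ▸ h.mul_left b))
  let P : Emb l m (m + 2) := ⟨Pm.prodMap Pn, m3.prodMap n3, fun u x => by
    rw [rho_prod]
    exact Prod.ext (m1 u x.1) (n1 u x.2)⟩
  have d1 : Deg P k 0 (hwv _, 0) := by
    refine Prod.ext ?_ ?_
    · change -Lv.Dg Lv.eng (Pm (hwv _)) = _
      rw [m2, v0]
      simp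
    · simp [dd, P]
  have d2 : Deg P k (-k) (y, hwv _) := by
    refine Prod.ext ?_ ?_
    · change -Lv.Dg Lv.eng (Pm y) = ((-k : ℤ) : ℂ) • Pm y
      rw [hy, yd]
      simp
    · change -Lv.Dg Lv.eng (Pn (hwv _)) - (k : ℂ) • Pn (hwv _) = ((-k : ℤ) : ℂ) • Pn (hwv _)
      rw [n2, Lv.eng_nu]
      simp
  have ex := exact_Z hm' hm hw he
  refine ⟨BaseExt F (EZ (m + 2) y), inferInstance, inferInstance, bmap F (iZ _ y), bmap F (pZ _ y),
    isInt F l (EZ_weight hw) (EZ_nil hm' hm) EZ_bdd,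
    ⟨fun n => bsub F (gZ P k y n), ?_, ?_, tm F 1 (yE _ y), ?_, rfl⟩,
    bmap_inj F ex iZ_inj pZ_surj, bmap_surj F pZ_surj, bmap_exact F ex pZ_surj, ns⟩
  · exact isGrading F (gZ P k y) (gZ_internal d1 d2) (fun n i k x hx => Deg.e hx i k)
      (fun n i k x hx => Deg.f hx i k) (fun n i k x hx => Deg.h hx i k)
  · exact tm_mem_bsub F 1 d1
  · exact tm_mem_bsub F 1 d2

end Pool.Agent.Lib.MP_b2f51a_al.KZ
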