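import Mathlib

/-! The scalar recursion: a hypergeometric series and the prime in its denominator. -/

noncomputable section

namespace Pool.Agent.Lib.MP_b2f51a_al.KZ

open PowerSeries
open Finset hiding mk

/-- The `p`-integral rational numbers, inside the complex numbers. -/
def Zp {p : ℕ} (hp : p.Prime) : Subring ℂ where
  carrier := {z | ∃ x y : ℤ, ¬ (p : ℤ) ∣ y ∧ (y : ℂ) * z = x}
  zero_mem' := ⟨0, 1, (Nat.prime_iff_prime_int.1 hp).not_dvd_one, by simp⟩
  one_mem' := ⟨1, 1, (Nat.prime_iff_prime_int.1 hp).not_dvd_one, by simp⟩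
  add_mem' := by
    rintro a b ⟨x, y, h, e⟩ ⟨x', y', h', e'⟩
    refine ⟨x * y' + x' * y, y * y', (Nat.prime_iff_prime_int.1 hp).not_dvd_mul h h', ?_⟩
    push_cast
    linear_combination y' * e + y * e'
  neg_mem' := by
    rintro a ⟨x, y, h, e⟩
    exact ⟨-x, y, h, by push_cast; linear_combination -e⟩
  mul_mem' := by
    rintro a b ⟨x, y, h, e⟩ ⟨x', y', h', e'⟩
    refine ⟨x * x', y * y', (Nat.prime_iff_prime_int.1 hp).not_dvd_mul h h', ?_⟩
    push_cast
    rw [← e, ← e']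
    ring

/-- The rational numbers whose numerator and denominator are prime to `p`. -/
def IsU (p : ℕ) (z : ℂ) : Prop := ∃ x y : ℤ, ¬ (p : ℤ) ∣ x ∧ ¬ (p : ℤ) ∣ y ∧ (y : ℂ) * z = x

variable {p : ℕ}

lemma Zp_div (hp : p.Prime) {d : ℤ} (hd : ¬ (p : ℤ) ∣ d) {z : ℂ} (h : (d : ℂ) * z ∈ Zp hp) :
    z ∈ Zp hp := by
  obtain ⟨x, y, h, e⟩ := h
  exact ⟨x, y * d, (Nat.prime_iff_prime_int.1 hp).not_dvd_mul h hd, by
    push_cast; linear_combination e⟩

lemma IsU.step (hp : p.Prime) {d d' : ℤ} (hd : ¬ (p : ℤ) ∣ d) (hd' : ¬ (p : ℤ) ∣ d') {z z' : ℂ}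
    (h : IsU p z) (e' : (d' : ℂ) * z' = d * z) : IsU p z' := by
  obtain ⟨x, y, h1, h2, e⟩ := h
  exact ⟨d * x, y * d', (Nat.prime_iff_prime_int.1 hp).not_dvd_mul hd h1,
    (Nat.prime_iff_prime_int.1 hp).not_dvd_mul h2 hd', by
      push_cast; linear_combination y * e' + d * e⟩

lemma IsU.sub (hp : p.Prime) {z w : ℂ} (h : IsU p z) (hw : w ∈ Zp hp) : IsU p (z - p * w) := by
  obtain ⟨x, y, h1, h2, e⟩ := h
  obtain ⟨x', y', h', e'⟩ := hw
  refine ⟨x * y' - p * (x' * y), y * y', fun h => ?_,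
    (Nat.prime_iff_prime_int.1 hp).not_dvd_mul h2 h', ?_⟩
  · exact (Nat.prime_iff_prime_int.1 hp).not_dvd_mul h1 h'
      ((dvd_sub_left (dvd_mul_right _ _)).1 h)
  · push_cast
    linear_combination y' * e - p * y * e'

lemma not_dvd_of_lt {d : ℤ} (h0 : 0 < d) (h1 : d < p) : ¬ (p : ℤ) ∣ d :=
  fun h => absurd (Int.le_of_dvd h0 h) (not_le.2 h1)

/-- The Euler operator. -/
def th (g : ℂ⟦X⟧) : ℂ⟦X⟧ := X * d⁄dX ℂ g

lemma th_mul (g g' : ℂ⟦X⟧) : th (g * g') = th g * g' + g * th g' := by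
  rw [th, th, th, Derivation.leibniz, smul_eq_mul, smul_eq_mul]
  ring

lemma coeff_th (g : ℂ⟦X⟧) (n : ℕ) : coeff n (th g) = n * coeff n g := by
  cases n with
  | zero => simp [th]
  | succ n =>
    rw [th, coeff_succ_X_mul, coeff_derivative]
    push_cast
    ring

lemma ser_iff (g g' : ℂ⟦X⟧) : (1 - X) * g = X * g' ↔
    coeff 0 g = 0 ∧ ∀ n, coeff (n + 1) g = coeff n g + coeff n g' := by
  rw [sub_mul, one_mul, sub_eq_iff_eq_add, ← mul_add]
  constructor
  · intro h
    refine ⟨by rw [h]; simp, fun n => ?_⟩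
    conv_lhs => rw [h]
    rw [coeff_succ_X_mul, map_add, add_comm]
  · rintro ⟨h0, h1⟩
    ext n
    cases n with
    | zero => rw [h0]; simp
    | succ n => rw [h1, coeff_succ_X_mul, map_add, add_comm]

/-- The coefficients of `(1 - x) ^ (-1 / (2 N))`. -/
def bb (N : ℕ) : ℕ → ℂ
  | 0 => 1
  | i + 1 => (2 * N * i + 1) / (2 * N * (i + 1)) * bb N i

lemma bb_succ {N : ℕ} (hN : 0 < N) (i : ℕ) :
    (2 * N * (i + 1) : ℂ) * bb N (i + 1) = (2 * N * i + 1) * bb N i := by
  have h1 : (N : ℂ) ≠ 0 := by exact_mod_cast hN.ne'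
  have h2 : (i : ℂ) + 1 ≠ 0 := by exact_mod_cast Nat.succ_ne_zero i
  rw [bb]
  field_simp

theorem unit_of_rec (hp : p.Prime) (h2 : 2 < p) {N a k : ℕ} (ha : 2 ≤ a) (haN : a + 2 ≤ N)
    (hk : p + a = N * k) {t s : ℕ → ℂ} (s0 : s 0 = 1)
    (ht : ∀ j : ℕ, (N * j - a) * t j = ∑ i ∈ range j, (s i + (1 / 2) * t i))
    (hs : ∀ j : ℕ, N * j * s j = t j + ∑ i ∈ range j, (t i + (1 / 2) * s i)) :
    IsU p (p * t k) := by
  have hP := Nat.prime_iff_prime_int.1 hp
  have hN : 0 < N := by omega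
  have hkZ : (p : ℤ) + a = N * k := by exact_mod_cast hk
  have hlt : ∀ j : ℕ, j < k → (N : ℤ) * j + N ≤ p + a := fun j hj => by
    have : (j : ℤ) + 1 ≤ k := by exact_mod_cast hj
    nlinarith
  have hge : ∀ j : ℕ, 0 < j → (N : ℤ) ≤ N * j := fun j hj => by
    have : (1 : ℤ) ≤ j := by exact_mod_cast hj
    nlinarith
  have two : ¬ (p : ℤ) ∣ 2 := not_dvd_of_lt (by norm_num) (by exact_mod_cast h2)
  have half : (1 / 2 : ℂ) ∈ Zp hp := ⟨1, 2, two, by norm_num⟩
  have t0 : t 0 = 0 := by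
    have := hs 0
    simpa using this.symm
  have hint : ∀ j, j < k → t j ∈ Zp hp ∧ s j ∈ Zp hp := by
    intro j
    induction j using Nat.strong_induction_on with
    | _ j ih =>
      intro hj
      rcases Nat.eq_zero_or_pos j with rfl | hj0
      · rw [t0, s0]
        exact ⟨zero_mem _, one_mem _⟩
      have a1 := hlt j hj
      have a2 := hge j hj0
      have b1 : t j ∈ Zp hp := by
        refine Zp_div hp (d := N * j - a) (not_dvd_of_lt (by omega) (by omega)) ?_
        push_cast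
        rw [ht]
        exact sum_mem fun i hi => add_mem (ih i (mem_range.1 hi) ((mem_range.1 hi).trans hj)).2
          (mul_mem half (ih i (mem_range.1 hi) ((mem_range.1 hi).trans hj)).1)
      refine ⟨b1, Zp_div hp (d := N * j) (not_dvd_of_lt (by omega) (by omega)) ?_⟩
      push_cast
      rw [hs]
      exact add_mem b1 (sum_mem fun i hi =>
        add_mem (ih i (mem_range.1 hi) ((mem_range.1 hi).trans hj)).1
          (mul_mem half (ih i (mem_range.1 hi) ((mem_range.1 hi).trans hj)).2))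
  have hb : ∀ i, i < k → bb N i ∈ Zp hp := by
    intro i
    induction i with
    | zero => exact fun _ => one_mem _
    | succ i ih =>
      intro hi
      have a1 := hlt _ hi
      have a2 := hge (i + 1) (Nat.succ_pos i)
      refine Zp_div hp (d := 2 * (N * (i + 1 : ℕ)))
        (hP.not_dvd_mul two (not_dvd_of_lt (by omega) (by omega))) ?_
      push_cast
      rw [← mul_assoc, bb_succ hN]
      exact mul_mem (by exact_mod_cast natCast_mem (Zp hp) (2 * N * i + 1)) (ih (by omega))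
  have e1 : (1 - X) * (C (2 * N : ℂ) * th (mk t) - C (2 * a : ℂ) * mk t) =
      X * (C 2 * mk s + mk t) := by
    rw [ser_iff]
    simp only [map_sub, map_add, coeff_C_mul, coeff_th, coeff_mk]
    refine ⟨by simp [t0], fun n => ?_⟩
    have a1 := ht (n + 1)
    rw [sum_range_succ, ← ht n] at a1
    linear_combination 2 * a1
  have e2 : (1 - X) * (C (2 * N : ℂ) * th (mk s) - C 2 * mk t) = X * (C 2 * mk t + mk s) := by
    rw [ser_iff]
    simp only [map_sub, map_add, coeff_C_mul, coeff_th, coeff_mk]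
    refine ⟨by simp [t0], fun n => ?_⟩
    have a1 := hs (n + 1)
    have a2 := hs n
    rw [sum_range_succ] at a1
    linear_combination 2 * a1 - 2 * a2
  have e3 : (1 - X) * (C (2 * N : ℂ) * th (mk (bb N))) = X * mk (bb N) := by
    rw [ser_iff]
    simp only [coeff_C_mul, coeff_th, coeff_mk]
    refine ⟨by simp, fun n => ?_⟩
    have a1 := bb_succ hN n
    push_cast
    linear_combination a1
  have c2 : (C 2 : ℂ⟦X⟧) = 2 := map_ofNat _ 2
  have f1 : (1 - X) * (C (2 * N : ℂ) * th (mk (bb N) * mk t) - C (2 * a : ℂ) * (mk (bb N) * mk t)) =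
      X * (C 2 * (mk (bb N) * mk s) + C 2 * (mk (bb N) * mk t)) := by
    rw [th_mul]
    linear_combination (mk (bb N) : ℂ⟦X⟧) * e1 + (mk t : ℂ⟦X⟧) * e3 -
      (X * mk (bb N) * mk t : ℂ⟦X⟧) * c2
  have f2 : (1 - X) * (C (2 * N : ℂ) * th (mk (bb N) * mk s) - C 2 * (mk (bb N) * mk t)) =
      X * (C 2 * (mk (bb N) * mk s) + C 2 * (mk (bb N) * mk t)) := by
    rw [th_mul]
    linear_combination (mk (bb N) : ℂ⟦X⟧) * e2 + (mk s : ℂ⟦X⟧) * e3 -
      (X * mk (bb N) * mk s : ℂ⟦X⟧) * c2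
  rw [ser_iff] at f1 f2
  simp only [map_sub, map_add, coeff_C_mul, coeff_th] at f1 f2
  set T : ℕ → ℂ := fun n => coeff n (mk (bb N) * mk t) with hT
  set S : ℕ → ℂ := fun n => coeff n (mk (bb N) * mk s) with hS
  have g1 : ∀ n : ℕ, (N * (n + 1) - a) * T (n + 1) = (N * n - a) * T n + S n + T n := fun n => by
    have := f1.2 n
    push_cast at this
    linear_combination (1 / 2) * this
  have g2 : ∀ n : ℕ, N * (n + 1) * S (n + 1) - T (n + 1) = N * n * S n - T n + S n + T n :=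
    fun n => by
      have := f2.2 n
      push_cast at this
      linear_combination (1 / 2) * this
  have T0 : T 0 = 0 := by simp [hT, t0]
  have S0 : S 0 = 1 := by simp [hS, s0, bb]
  have g3 : ∀ n : ℕ, N * n * S n - T n = (N * n - a) * T n := by
    intro n
    induction n with
    | zero => simp [T0]
    | succ n ih =>
      push_cast
      rw [g1, g2, ih]
  have g4 : ∀ n : ℕ, n + 1 ≤ k → IsU p ((N * (n + 1) - a) * T (n + 1)) := by
    intro n
    induction n with
    | zero =>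
      intro _
      rw [g1, T0, S0]
      exact ⟨1, 1, hP.not_dvd_one, hP.not_dvd_one, by simp⟩
    | succ n ih =>
      intro hn
      have a1 := hlt (n + 1) hn
      have a2 := hge (n + 1) (Nat.succ_pos n)
      refine (ih (by omega)).step hp (d := (N * (n + 1 : ℕ) + 1) * (N * (n + 1 : ℕ) - a + 1))
        (d' := (N * (n + 1 : ℕ)) * (N * (n + 1 : ℕ) - a))
        (hP.not_dvd_mul (not_dvd_of_lt (by omega) (by omega)) (not_dvd_of_lt (by omega) (by omega)))
        (hP.not_dvd_mul (not_dvd_of_lt (by omega) (by omega)) (not_dvd_of_lt (by omega) (by omega)))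
        ?_
      have b1 := g3 (n + 1)
      rw [g1]
      push_cast at b1 ⊢
      linear_combination (N * (n + 1) - a) * b1
  obtain ⟨n, rfl⟩ : ∃ n, k = n + 1 := ⟨k - 1, by
    rcases Nat.eq_zero_or_pos k with rfl | h
    · omega
    · omega⟩
  have g5 := g4 n le_rfl
  have hkC : (N * (n + 1) - a : ℂ) = p := by
    have : ((p + a : ℕ) : ℂ) = (N * (n + 1) : ℕ) := by rw [hk]
    push_cast at this
    linear_combination -this
  have g6 : T (n + 1) = t (n + 1) + ∑ x ∈ antidiagonal n, bb N (x.1 + 1) * t x.2 := by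
    simp only [hT, coeff_mul, coeff_mk]
    rw [Finset.Nat.sum_antidiagonal_succ]
    simp [bb]
  have g7 : ∑ x ∈ antidiagonal n, bb N (x.1 + 1) * t x.2 ∈ Zp hp := by
    refine sum_mem fun x hx => ?_
    have := mem_antidiagonal.1 hx
    rcases Nat.eq_zero_or_pos x.2 with h | h
    · rw [h, t0, mul_zero]
      exact zero_mem _
    · exact mul_mem (hb _ (by omega)) (hint _ (by omega)).1
  have g8 := g5.sub hp g7
  rw [hkC, g6] at g8
  convert g8 using 1
  ring

end Pool.Agent.Lib.MP_b2f51a_al.KZ
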