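import Pool.Agent.Lib.MP_b2f51a_al.KZ.Cas

/-! Orthogonal projections onto a highest weight submodule of the Fock space, computed with the
Casimir operator. -/

noncomputable section

namespace Pool.Agent.Lib.MP_b2f51a_al.Lv

open Finset

variable {l : ℕ}

/-- The submodule generated by `v`. -/
def LM (v : Fk l) : Submodule ℂ (Fk l) where
  carrier := {x | ∃ u : U, (fockRep l).rho u v = x}
  zero_mem' := ⟨0, by simp⟩
  add_mem' := by
    rintro _ _ ⟨a, rfl⟩ ⟨b, rfl⟩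
    exact ⟨a + b, by simp⟩
  smul_mem' := by
    rintro c _ ⟨a, rfl⟩
    exact ⟨c • a, by simp⟩

lemma LM_rho {v x : Fk l} (hx : x ∈ LM v) (u : U) : (fockRep l).rho u x ∈ LM v := by
  obtain ⟨a, rfl⟩ := hx
  exact ⟨u * a, by simp⟩

lemma good_J {S : AddSubgroup (Fk l)} (h : (fockRep l).Good S) (s : Bool) (n : ℤ) :
    Stab S (JF l s n) := by
  change Stab S ((fockRep l).J s n)
  cases s
  · have a := ((h.J n).conj ((fockRep l).n_one n).2 ((fockRep l).n_mul_n' 1) (h.n 1) (h.n' 1)).neg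
    rw [neg_neg] at a
    simpa using a 1
  · simpa using h.J n 1

lemma LM_J {v x : Fk l} (hx : x ∈ LM v) (s : Bool) (n : ℤ) : JF l s n x ∈ LM v := by
  refine good_J (S := (LM v).toAddSubgroup) (fun i => ⟨fun k y hy => ?_, fun k y hy => ?_⟩) s n x hx
  · rw [← LoopRep.rho_e, ← map_dpow]
    exact LM_rho hy _
  · rw [← LoopRep.rho_f, ← map_dpow]
    exact LM_rho hy _

lemma stab_HF {S : AddSubgroup (Fk l)} (h : ∀ s n, Stab S (JF l s n)) (n : ℤ) :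
    Stab S (HF l n) := fun x hx => by
  rw [HF_apply]
  exact sub_mem (h _ _ _ (h _ _ _ hx)) (h _ _ _ (h _ _ _ hx))

lemma LM_H {v x : Fk l} (hx : x ∈ LM v) (n : ℤ) : HF l n x ∈ LM v :=
  stab_HF (S := (LM v).toAddSubgroup) (fun s n _ hy => LM_J hy s n) n x hx

/-- `u` is the orthogonal projection of `Z` to the submodule generated by `v`. -/
def IsPr (v Z u : Fk l) : Prop := u ∈ LM v ∧ ∀ x ∈ LM v, ip x u = ip x Z

variable {v Z Z' u u' : Fk l}

lemma IsPr.self (h : u ∈ LM v) : IsPr v u u := ⟨h, fun _ _ => rfl⟩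

lemma IsPr.add (h : IsPr v Z u) (h' : IsPr v Z' u') : IsPr v (Z + Z') (u + u') :=
  ⟨add_mem h.1 h'.1, fun x hx => by rw [ip_add_right, ip_add_right, h.2 x hx, h'.2 x hx]⟩

lemma IsPr.smul (h : IsPr v Z u) (c : ℂ) : IsPr v (c • Z) (c • u) :=
  ⟨Submodule.smul_mem _ c h.1, fun x hx => by rw [ip_smul_right, ip_smul_right, h.2 x hx]⟩

lemma IsPr.neg (h : IsPr v Z u) : IsPr v (-Z) (-u) := by
  simpa using h.smul (-1)

lemma IsPr.unique (h : IsPr v Z u) (h' : IsPr v Z u') : u = u' := by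
  rw [← sub_eq_zero]
  have hm := sub_mem h.1 h'.1
  exact ip_self_eq_zero (by rw [ip_sub_right, h.2 _ hm, h'.2 _ hm, sub_self])

lemma IsPr.op {A B : Module.End ℂ (Fk l)} (h : IsPr v Z u) (hAB : Adj A B)
    (hA : ∀ x ∈ LM v, A x ∈ LM v) (hB : ∀ x ∈ LM v, B x ∈ LM v) : IsPr v (B Z) (B u) :=
  ⟨hB _ h.1, fun x hx => by rw [← hAB, ← hAB, h.2 _ (hA x hx)]⟩

lemma IsPr.J (h : IsPr v Z u) (s : Bool) (n : ℤ) : IsPr v (JF l s n Z) (JF l s n u) :=
  h.op (adj_JF s n).symm (fun _ hx => LM_J hx _ _) fun _ hx => LM_J hx _ _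

lemma IsPr.H (h : IsPr v Z u) (n : ℤ) : IsPr v (HF l n Z) (HF l n u) :=
  h.op (adj_HF n) (fun _ hx => LM_H hx _) fun _ hx => LM_H hx _

/-- The vectors whose projection exists and lies in `S`. -/
def PS (v : Fk l) (S : AddSubgroup (Fk l)) : AddSubgroup (Fk l) where
  carrier := {Z | ∃ u ∈ S, IsPr v Z u}
  zero_mem' := ⟨0, zero_mem _, IsPr.self (zero_mem _)⟩
  add_mem' := by
    rintro _ _ ⟨a, ha, h⟩ ⟨b, hb, h'⟩
    exact ⟨a + b, add_mem ha hb, h.add h'⟩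
  neg_mem' := by
    rintro _ ⟨a, ha, h⟩
    exact ⟨-a, neg_mem ha, h.neg⟩

open Classical in
/-- The squared norm of the projection. -/
def nr (v Z : Fk l) : ℂ := if h : ∃ u, IsPr v Z u then ip h.choose h.choose else 0

lemma IsPr.nr_eq (h : IsPr v Z u) : nr v Z = ip u u := by
  have h1 : ∃ u, IsPr v Z u := ⟨u, h⟩
  rw [nr, dif_pos h1, h1.choose_spec.unique h]

lemma nr_zero (v : Fk l) : nr v 0 = 0 := by
  rw [(IsPr.self (zero_mem (LM v))).nr_eq, ip_zero_left]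

lemma IsPr.nr_neg (h : IsPr v Z u) : nr v (-Z) = nr v Z := by
  rw [h.neg.nr_eq, h.nr_eq, ← neg_one_smul ℂ u, ip_smul_left, ip_smul_right]
  simp

lemma IsPr.ip_op {A B : Module.End ℂ (Fk l)} (hAB : Adj B A) (h : IsPr v (B Z) (B u)) :
    ip u (A (B Z)) = nr v (B Z) := by
  rw [← hAB, h.nr_eq, h.2 _ h.1]

/-- The part of the Casimir operator that factors through raising operators. -/
def Rest (M : ℕ) (Z : Fk l) : Fk l :=
  JF l false 0 (JF l true 0 Z) + ∑ n ∈ range M, RR l (n + 1) Z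

lemma RR_apply (n : ℤ) (Z : Fk l) : RR l n Z = JF l true (-n) (JF l false n Z) +
    JF l false (-n) (JF l true n Z) + (1 / 2 : ℂ) • HF l (-n) (HF l n Z) := rfl

lemma CC_apply {j h : ℂ} (h1 : Dg eng Z = j • Z) (h2 : HF l 0 Z = h • Z) (M : ℕ) :
    CC l M Z = ((l + 2) * j - h ^ 2 / 4 - h / 2) • Z - Rest M Z := by
  simp only [CC, Om, Rest, LinearMap.sub_apply, LinearMap.add_apply, LinearMap.smul_apply,
    Module.End.mul_apply, LinearMap.sum_apply, h1, h2, map_smul]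
  module

lemma ip_sum_right {ι : Type*} (s : Finset ι) (x : Fk l) (y : ι → Fk l) :
    ip x (∑ i ∈ s, y i) = ∑ i ∈ s, ip x (y i) := by
  classical
  induction s using Finset.induction_on with
  | empty => simp
  | insert a s ha ih => rw [sum_insert ha, sum_insert ha, ip_add_right, ih]

variable {lam : Fin 2 → ℤ} {c j h : ℂ} {M : ℕ}

lemma rec_ip (hv : IsHW (fockRep l).rho lam v) (h0 : v ∈ CasK l c) (hc : (starRingEnd ℂ) c = c)
    (h1 : Dg eng Z = j • Z) (h2 : HF l 0 Z = h • Z)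
    (h3 : ∀ n : ℕ, M ≤ n → RR l (n + 1) Z = 0) {x : Fk l} (hx : x ∈ LM v) :
    ip x (((l + 2) * j - h ^ 2 / 4 - h / 2 + c) • Z) = ip x (Rest M Z) := by
  obtain ⟨a, rfl⟩ := hx
  obtain ⟨N, hN⟩ := CasK_rho hv h0 a
  have e1 : ∀ k, CC l (M + k) Z = CC l M Z := by
    intro k
    induction k with
    | zero => rfl
    | succ k ih =>
      rw [← add_assoc, CC_succ, LinearMap.sub_apply, ih, h3 _ (Nat.le_add_right _ _), sub_zero]
  have e2 := congrArg (fun y => ip y Z) (hN (M + N) (Nat.le_add_left _ _))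
  simp only [ip_add_left, ip_smul_left, hc, ip_zero_left] at e2
  rw [adj_CC, e1, CC_apply h1 h2, ip_sub_right, ip_smul_right] at e2
  rw [ip_smul_right]
  linear_combination e2

lemma mem_rec (hv : IsHW (fockRep l).rho lam v) (h0 : v ∈ CasK l c) (hc : (starRingEnd ℂ) c = c)
    (h1 : Dg eng Z = j • Z) (h2 : HF l 0 Z = h • Z)
    (h3 : ∀ n : ℕ, M ≤ n → RR l (n + 1) Z = 0) {S : AddSubgroup (Fk l)}
    (hJ : ∀ s n, Stab S (JF l s n)) (hh : ∀ x ∈ S, (1 / 2 : ℂ) • x ∈ S)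
    (h4 : JF l true 0 Z ∈ PS v S)
    (h5 : ∀ n : ℕ, n < M → (∀ s, JF l s (n + 1) Z ∈ PS v S) ∧ HF l (n + 1) Z ∈ PS v S) :
    ((l + 2) * j - h ^ 2 / 4 - h / 2 + c) • Z ∈ PS v S := by
  have a1 : ∀ s n, ∀ Y ∈ PS v S, JF l s n Y ∈ PS v S := by
    rintro s n Y ⟨u, hu, h⟩
    exact ⟨_, hJ s n u hu, h.J s n⟩
  have a2 : ∀ n, ∀ Y ∈ PS v S, (1 / 2 : ℂ) • HF l n Y ∈ PS v S := by
    rintro n Y ⟨u, hu, h⟩
    exact ⟨_, hh _ (stab_HF hJ n u hu), (h.H n).smul _⟩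
  have a3 : Rest M Z ∈ PS v S := by
    refine add_mem (a1 _ _ _ h4) (sum_mem fun n hn => ?_)
    obtain ⟨b1, b2⟩ := h5 n (mem_range.1 hn)
    rw [RR_apply]
    exact add_mem (add_mem (a1 _ _ _ (b1 _)) (a1 _ _ _ (b1 _))) (a2 _ _ b2)
  obtain ⟨u, hu, h⟩ := a3
  exact ⟨u, hu, h.1, fun x hx => by rw [h.2 x hx, rec_ip hv h0 hc h1 h2 h3 hx]⟩

lemma norm_rec (hv : IsHW (fockRep l).rho lam v) (h0 : v ∈ CasK l c) (hc : (starRingEnd ℂ) c = c)
    (h1 : Dg eng Z = j • Z) (h2 : HF l 0 Z = h • Z)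
    (h3 : ∀ n : ℕ, M ≤ n → RR l (n + 1) Z = 0) (hu : IsPr v Z u) :
    ((l + 2) * j - h ^ 2 / 4 - h / 2 + c) * nr v Z = nr v (JF l true 0 Z) +
      ∑ n ∈ range M, (nr v (JF l false (n + 1) Z) + nr v (JF l true (n + 1) Z) +
        (1 / 2) * nr v (HF l (n + 1) Z)) := by
  have e := rec_ip hv h0 hc h1 h2 h3 hu.1
  have a0 : Adj (JF l true 0) (JF l false 0) := by simpa using adj_EF (l := l) 0
  rw [ip_smul_right, ← hu.2 _ hu.1, ← hu.nr_eq, Rest, ip_add_right, ip_sum_right,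
    IsPr.ip_op a0 (hu.J _ _)] at e
  rw [e]
  congr 1
  refine sum_congr rfl fun n _ => ?_
  rw [RR_apply, ip_add_right, ip_add_right, ip_smul_right, IsPr.ip_op (adj_EF _).symm (hu.J _ _),
    IsPr.ip_op (adj_FE _).symm (hu.J _ _), IsPr.ip_op (adj_HF _).symm (hu.H _)]

lemma LM_Dg (hv : IsHW (fockRep l).rho lam v) (h0 : v ∈ CasK l c) {x : Fk l} (hx : x ∈ LM v) :
    Dg eng x ∈ LM v := by
  obtain ⟨a, ha⟩ := hx
  obtain ⟨N, hN⟩ := CasK_rho hv h0 a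
  have hx : x ∈ LM v := ⟨a, ha⟩
  have e := hN N le_rfl
  rw [ha] at e
  have hl : ((l : ℂ) + 2) ≠ 0 := by exact_mod_cast (by omega : l + 2 ≠ 0)
  have e2 : Dg eng x = ((l : ℂ) + 2)⁻¹ • (Om l x + ∑ n ∈ range N, RR l (n + 1) x - c • x) := by
    rw [eq_inv_smul_iff₀ hl, ← sub_eq_zero, ← e]
    simp only [CC, LinearMap.sub_apply, LinearMap.smul_apply, LinearMap.sum_apply]
    abel
  rw [e2]
  refine Submodule.smul_mem _ _ (sub_mem (add_mem ?_ (sum_mem fun n _ => ?_))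
    (Submodule.smul_mem _ _ hx))
  · exact add_mem (add_mem (LM_J (LM_J hx _ _) _ _) (Submodule.smul_mem _ _ (LM_H (LM_H hx _) _)))
      (Submodule.smul_mem _ _ (LM_H hx _))
  · rw [RR_apply]
    exact add_mem (add_mem (LM_J (LM_J hx _ _) _ _) (LM_J (LM_J hx _ _) _ _))
      (Submodule.smul_mem _ _ (LM_H (LM_H hx _) _))

end Pool.Agent.Lib.MP_b2f51a_al.Lv
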