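import Pool.Agent.Lib.MP_b2f51a_al.KZ.Proj
import Pool.Agent.Lib.MP_b2f51a_al.KZ.Num

/-! The projections of the modes of a fermion applied to a highest weight vector. -/

noncomputable section

namespace Pool.Agent.Lib.MP_b2f51a_al.Lv

open Finset

variable {l : ℕ} {r : Fin l} {m : ℕ}

/-- A mode of the fermion of colour `r` applied to the highest weight vector of weight `m + 1`. -/
def ZZ (r : Fin l) (m : ℕ) (s : Bool) (j : ℤ) : Fk l := psis ⟨s, r, -j⟩ (bv (Dnu l (m + 1)))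

lemma JF_nu {n : ℕ} (s : Bool) {a : ℤ} (ha : 1 ≤ a) : JF l s a (bv (Dnu l n)) = 0 := by
  refine JF_bv_eq_zero fun r b h => ?_
  cases s
  · rw [Bool.not_false, occ_Dnu_true] at h
    rw [occ_Dnu_false]; omega
  · rw [Bool.not_true, occ_Dnu_false] at h
    rw [occ_Dnu_true]; omega

lemma E_nu {n : ℕ} {a : ℤ} (ha : 0 ≤ a) : JF l true a (bv (Dnu l n)) = 0 := by
  refine JF_bv_eq_zero fun r b h => ?_
  rw [Bool.not_true, occ_Dnu_false] at h
  rw [occ_Dnu_true]; omega

lemma eng_nu (n : ℕ) : Dg eng (bv (Dnu l n)) = 0 := by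
  have : swt eng (Dnu l n) = 0 := by
    refine sum_eq_zero fun j hj => ?_
    obtain ⟨s, r, a⟩ := j
    obtain ⟨-, rfl, -⟩ := (mem_Dnu s r a).1 hj
    simp [eng]
  rw [Dg_bv, this]
  simp

lemma T_neg {j : ℤ} (hj : j ≤ 0) : ZZ r m false j = 0 := by
  rw [ZZ, psis_bv, if_neg (by rw [occ_Dnu_false]; omega)]

lemma A_neg {j : ℤ} (hj : j < 0) : ZZ r m true j = 0 := by
  rw [ZZ, psis_bv, if_neg (by rw [occ_Dnu_true]; omega)]

lemma E_T {n : ℤ} (hn : 0 ≤ n) (j : ℤ) : JF l true n (ZZ r m false j) = 0 := by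
  rw [ZZ, cm_apply (JF l true n), E_nu hn, cm_JF_psis]
  simp

lemma F_T {n : ℤ} (hn : 1 ≤ n) (j : ℤ) :
    JF l false n (ZZ r m false j) = -ZZ r m true (j - n) := by
  rw [ZZ, cm_apply (JF l false n), JF_nu _ hn, cm_JF_psis, ZZ, show -(j - n) = -j + n by ring]
  simp

lemma E_A {n : ℤ} (hn : 0 ≤ n) (j : ℤ) :
    JF l true n (ZZ r m true j) = -ZZ r m false (j - n) := by
  rw [ZZ, cm_apply (JF l true n), E_nu hn, cm_JF_psis, ZZ, show -(j - n) = -j + n by ring]
  simp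

lemma F_A {n : ℤ} (hn : 1 ≤ n) (j : ℤ) : JF l false n (ZZ r m true j) = 0 := by
  rw [ZZ, cm_apply (JF l false n), JF_nu _ hn, cm_JF_psis]
  simp

lemma H_T {n : ℤ} (hn : 1 ≤ n) (j : ℤ) : HF l n (ZZ r m false j) = ZZ r m false (j - n) := by
  rw [HF_apply, F_T hn, map_neg, E_A le_rfl, E_T le_rfl]
  simp

lemma H_A {n : ℤ} (hn : 1 ≤ n) (j : ℤ) : HF l n (ZZ r m true j) = -ZZ r m true (j - n) := by
  rw [HF_apply, F_A hn, E_A le_rfl, map_neg, F_T hn]
  simp

lemma eng_Z (s : Bool) (j : ℤ) : Dg eng (ZZ r m s j) = (j : ℂ) • ZZ r m s j := by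
  rw [ZZ, cm_apply (Dg eng), eng_nu, cm_Dg_psis]
  simp [eng]

lemma H0_nu {n : ℕ} (hn : n ≤ l) : HF l 0 (bv (Dnu l n)) = (n : ℂ) • bv (Dnu l n) := by
  exact (wtV_nu hn 1).trans (by simp [wt])

lemma H0_T (hm : m + 1 ≤ l) (j : ℤ) :
    HF l 0 (ZZ r m false j) = ((m : ℂ) + 2) • ZZ r m false j := by
  rw [ZZ, cm_apply (HF l 0), H0_nu hm, HF_zero, cm_Dg_psis]
  simp only [chg, map_smul, LinearMap.neg_apply, LinearMap.smul_apply]
  push_cast
  module

lemma H0_A (hm : m + 1 ≤ l) (j : ℤ) : HF l 0 (ZZ r m true j) = (m : ℂ) • ZZ r m true j := by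
  rw [ZZ, cm_apply (HF l 0), H0_nu hm, HF_zero, cm_Dg_psis]
  simp only [chg, map_smul, LinearMap.neg_apply, LinearMap.smul_apply]
  push_cast
  module

lemma RR_T {j : ℕ} {n : ℕ} (h : j ≤ n) : RR l (n + 1) (ZZ r m false j) = 0 := by
  rw [RR_apply, F_T (by omega), E_T (by omega), H_T (by omega), A_neg (by omega), T_neg (by omega)]
  simp

lemma RR_A {j : ℕ} {n : ℕ} (h : j ≤ n) : RR l (n + 1) (ZZ r m true j) = 0 := by
  rw [RR_apply, F_A (by omega), E_A (by omega), H_A (by omega), A_neg (by omega), T_neg (by omega)]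
  simp

lemma hg0_apply (x : Fk l) : (fockRep l).hg 0 x = (l : ℂ) • x - HF l 0 x := by
  rw [hg_zero, HF_zero]
  rfl

lemma hw_A (hm : m + 1 ≤ l) : IsHW (fockRep l).rho (wt l m) (ZZ r m true 0) where
  e i := by
    rw [LoopRep.rho_e]
    fin_cases i
    · exact F_A le_rfl 0
    · exact (E_A le_rfl 0).trans (by rw [T_neg (by norm_num), neg_zero])
  h i := by
    rw [LoopRep.rho_h]
    fin_cases i
    · refine (hg0_apply _).trans ?_
      rw [H0_A hm]
      simp [wt, sub_smul]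
    · exact (H0_A hm 0).trans (by simp [wt])

lemma ip_A (hr : l ≤ r.val + (m + 1)) : ip (ZZ r m true 0) (ZZ r m true 0) = 1 := by
  have h1 : psi ⟨true, r, -0⟩ (bv (Dnu l (m + 1))) = 0 := by
    rw [psi_bv, if_pos (by rw [occ_Dnu_true]; omega)]
  have h2 := LinearMap.congr_fun (psi_psis (⟨true, r, -0⟩ : Ix l) ⟨true, r, -0⟩)
    (bv (Dnu l (m + 1)))
  simp only [if_true, LinearMap.sub_apply, Module.End.mul_apply, h1, map_zero, sub_zero,
    Module.End.one_apply] at h2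
  rw [ZZ, (adj_psi _).symm, h2, ip_bv_self]

lemma cas_A (hm : m + 1 ≤ l) : ZZ r m true 0 ∈ CasK l ((m : ℂ) ^ 2 / 4 + m / 2) := by
  refine ⟨0, fun M _ => ?_⟩
  have h1 : Rest M (ZZ r m true 0) = 0 := by
    rw [Rest, E_A le_rfl, T_neg (by norm_num), neg_zero, map_zero, zero_add]
    exact sum_eq_zero fun n _ => RR_A (j := 0) (Nat.zero_le n)
  rw [CC_apply (eng_Z true 0) (H0_A hm 0), h1]
  push_cast
  module

lemma conj_c (m : ℕ) : (starRingEnd ℂ) ((m : ℂ) ^ 2 / 4 + m / 2) = (m : ℂ) ^ 2 / 4 + m / 2 := by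
  simp [map_ofNat]

section step

variable {S : AddSubgroup (Fk l)}

lemma step_T (hm : m + 1 ≤ l) (hJ : ∀ s n, Stab S (JF l s n)) (hh : ∀ x ∈ S, (1 / 2 : ℂ) • x ∈ S)
    (j : ℕ) (ih : ∀ s, ∀ i : ℤ, i < j → ZZ r m s i ∈ PS (ZZ r m true 0) S) :
    (((l : ℂ) + 2) * j - (m + 2)) • ZZ r m false j ∈ PS (ZZ r m true 0) S := by
  have := mem_rec (M := j) (hw_A hm) (cas_A hm) (conj_c m) (eng_Z (r := r) (m := m) false j)
    (H0_T hm j) (fun n hn => RR_T hn) hJ hh (by rw [E_T le_rfl]; exact zero_mem _)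
    fun n _ => ⟨fun s => by
      cases s
      · rw [F_T (by omega)]; exact neg_mem (ih _ _ (by omega))
      · rw [E_T (by omega)]; exact zero_mem _,
      by rw [H_T (by omega)]; exact ih _ _ (by omega)⟩
  convert this using 2
  push_cast
  ring

lemma step_A (hm : m + 1 ≤ l) (hJ : ∀ s n, Stab S (JF l s n)) (hh : ∀ x ∈ S, (1 / 2 : ℂ) • x ∈ S)
    (j : ℕ) (ih : ∀ s, ∀ i : ℤ, i < j → ZZ r m s i ∈ PS (ZZ r m true 0) S)
    (hT : ZZ r m false j ∈ PS (ZZ r m true 0) S) :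
    (((l : ℂ) + 2) * j) • ZZ r m true j ∈ PS (ZZ r m true 0) S := by
  have := mem_rec (M := j) (hw_A hm) (cas_A hm) (conj_c m) (eng_Z (r := r) (m := m) true j)
    (H0_A hm j) (fun n hn => RR_A hn) hJ hh (by rw [E_A le_rfl, sub_zero]; exact neg_mem hT)
    fun n _ => ⟨fun s => by
      cases s
      · rw [F_A (by omega)]; exact zero_mem _
      · rw [E_A (by omega)]; exact neg_mem (ih _ _ (by omega)),
      by rw [H_A (by omega)]; exact neg_mem (ih _ _ (by omega))⟩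
  convert this using 2
  push_cast
  ring

lemma PS_div {v Z : Fk l} {d : ℂ} (hd : d ≠ 0) (h : ∀ x ∈ S, d⁻¹ • x ∈ S) (hZ : d • Z ∈ PS v S) :
    Z ∈ PS v S := by
  obtain ⟨u, hu, h'⟩ := hZ
  have := h'.smul d⁻¹
  rw [inv_smul_smul₀ hd] at this
  exact ⟨_, h u hu, this⟩

lemma all_mem (hm : m + 2 ≤ l) (hJ : ∀ s n, Stab S (JF l s n)) (hh : ∀ x ∈ S, (1 / 2 : ℂ) • x ∈ S)
    (hv : ZZ r m true 0 ∈ S) (k : ℕ)
    (hd : ∀ d : ℕ, 0 < d → d + (l + 2) ≤ (l + 2) * k → ∀ x ∈ S, (d : ℂ)⁻¹ • x ∈ S) :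
    ∀ s, ∀ i : ℤ, i < k → ZZ r m s i ∈ PS (ZZ r m true 0) S := by
  induction k with
  | zero =>
    intro s i hi
    cases s
    · rw [T_neg (by omega)]; exact zero_mem _
    · rw [A_neg (j := i) (by omega)]; exact zero_mem _
  | succ k ih =>
    have ih' := ih fun d h0 h1 => hd d h0 (h1.trans (Nat.mul_le_mul_left _ (Nat.le_succ k)))
    have key : ∀ s, ZZ r m s k ∈ PS (ZZ r m true 0) S := by
      rcases Nat.eq_zero_or_pos k with rfl | hk
      · intro s
        cases s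
        · rw [T_neg (by omega)]; exact zero_mem _
        · exact ⟨_, hv, IsPr.self ⟨1, by simp⟩⟩
      have h1 : l + 2 ≤ (l + 2) * k := Nat.le_mul_of_pos_right _ hk
      have h2 : (l + 2) * (k + 1) = (l + 2) * k + (l + 2) := Nat.mul_succ _ _
      obtain ⟨d, hdk⟩ : ∃ d, (l + 2) * k = d + (m + 2) := ⟨(l + 2) * k - (m + 2), by omega⟩
      have hT : ZZ r m false k ∈ PS (ZZ r m true 0) S := by
        refine PS_div (d := (d : ℂ)) (by exact_mod_cast (by omega : d ≠ 0))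
          (hd d (by omega) (by omega)) ?_
        have e : (d : ℂ) = ((l : ℂ) + 2) * k - (m + 2) := by
          have := congrArg (Nat.cast : ℕ → ℂ) hdk
          push_cast at this
          linear_combination -this
        rw [e]
        exact step_T (by omega) hJ hh k ih'
      intro s
      cases s
      · exact hT
      · refine PS_div (d := (((l + 2) * k : ℕ) : ℂ)) (by exact_mod_cast (by omega : (l + 2) * k ≠ 0))
          (hd _ (by omega) (by omega)) ?_
        push_cast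
        exact step_A (by omega) hJ hh k ih' hT
    intro s i hi
    rcases lt_or_eq_of_le (show i ≤ k by omega) with h | rfl
    · exact ih' s i h
    · exact key s

end step

lemma exists_pr (hm : m + 2 ≤ l) (s : Bool) (i : ℤ) : ∃ u, IsPr (ZZ r m true 0) (ZZ r m s i) u := by
  obtain ⟨u, -, h⟩ := all_mem (r := r) (S := (LM (ZZ r m true 0)).toAddSubgroup) hm
    (fun s n _ hx => LM_J hx s n) (fun _ hx => Submodule.smul_mem _ _ hx) ⟨1, by simp⟩
    (i.toNat + 1) (fun _ _ _ _ hx => Submodule.smul_mem _ _ hx) s i (by omega)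
  exact ⟨u, h⟩

lemma nr_neg_Z (hm : m + 2 ≤ l) (s : Bool) (i : ℤ) :
    nr (ZZ r m true 0) (-ZZ r m s i) = nr (ZZ r m true 0) (ZZ r m s i) :=
  (exists_pr hm s i).choose_spec.nr_neg

lemma sum_refl (g : ℤ → ℂ) (j : ℕ) :
    ∑ n ∈ range j, g ((j : ℤ) - (n + 1)) = ∑ i ∈ range j, g i := by
  rw [← sum_range_reflect (fun i : ℕ => g i) j]
  refine sum_congr rfl fun n hn => ?_
  have := mem_range.1 hn
  congr 1
  omega

lemma nr_unit (hm : m + 2 ≤ l) (hr : l ≤ r.val + (m + 1)) {p k : ℕ} (hp : p.Prime) (h2 : 2 < p)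
    (hk : p + (m + 2) = (l + 2) * k) :
    KZ.IsU p (p * nr (ZZ r m true 0) (ZZ r m false k)) := by
  refine KZ.unit_of_rec hp h2 (N := l + 2) (a := m + 2) (by omega) (by omega) hk
    (t := fun j => nr (ZZ r m true 0) (ZZ r m false j))
    (s := fun j => nr (ZZ r m true 0) (ZZ r m true j)) ?_ (fun j => ?_) fun j => ?_
  · exact (IsPr.self (v := ZZ r m true 0) ⟨1, by simp⟩).nr_eq.trans (ip_A hr)
  · obtain ⟨u, hu⟩ := exists_pr (r := r) hm false j
    have := norm_rec (M := j) (hw_A (by omega)) (cas_A (by omega)) (conj_c m) (eng_Z false j)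
      (H0_T (by omega) j) (fun n hn => RR_T hn) hu
    rw [E_T le_rfl, nr_zero, zero_add] at this
    rw [← sum_refl (fun i => nr (ZZ r m true 0) (ZZ r m true i) +
      1 / 2 * nr (ZZ r m true 0) (ZZ r m false i))]
    convert this using 2 with n
    · push_cast
      ring
    · rw [F_T (by omega), E_T (by omega), H_T (by omega), nr_zero, nr_neg_Z hm, add_zero]
  · obtain ⟨u, hu⟩ := exists_pr (r := r) hm true j
    have := norm_rec (M := j) (hw_A (by omega)) (cas_A (by omega)) (conj_c m) (eng_Z true j)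
      (H0_A (by omega) j) (fun n hn => RR_A hn) hu
    rw [E_A le_rfl, nr_neg_Z hm, sub_zero] at this
    rw [← sum_refl (fun i => nr (ZZ r m true 0) (ZZ r m false i) +
      1 / 2 * nr (ZZ r m true 0) (ZZ r m true i))]
    convert this using 3 with n
    · push_cast
      ring
    · rw [F_A (by omega), E_A (by omega), H_A (by omega), nr_zero, nr_neg_Z hm, nr_neg_Z hm,
        zero_add]

/-- The localisation at `p` of the lattice generated by `v`. -/
def Lam {p : ℕ} (hp : p.Prime) (v : Fk l) : AddSubgroup (Fk l) where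
  carrier := {x | ∃ N : ℕ, ¬ p ∣ N ∧ (N : ℂ) • x ∈ latt (fockRep l).rho v}
  zero_mem' := ⟨1, hp.not_dvd_one, by simp⟩
  add_mem' := by
    rintro x y ⟨N, h, hx⟩ ⟨N', h', hy⟩
    refine ⟨N * N', hp.not_dvd_mul h h', ?_⟩
    have : ((N * N' : ℕ) : ℂ) • (x + y) = (N' : ℂ) • (N : ℂ) • x + (N : ℂ) • (N' : ℂ) • y := by
      push_cast
      module
    rw [this]
    exact add_mem (nat_smul_mem hx _) (nat_smul_mem hy _)
  neg_mem' := by
    rintro x ⟨N, h, hx⟩
    exact ⟨N, h, by rw [smul_neg]; exact neg_mem hx⟩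

lemma Lam_div {p : ℕ} (hp : p.Prime) (v : Fk l) {d : ℕ} (h0 : 0 < d) (h1 : d < p) :
    ∀ x ∈ Lam hp v, (d : ℂ)⁻¹ • x ∈ Lam hp v := by
  rintro x ⟨N, h, hx⟩
  refine ⟨N * d, hp.not_dvd_mul h (Nat.not_dvd_of_pos_of_lt h0 h1), ?_⟩
  have hd : (d : ℂ) ≠ 0 := by exact_mod_cast h0.ne'
  rw [Nat.cast_mul, mul_smul, smul_inv_smul₀ hd]
  exact hx

/-- The vector that becomes singular modulo the lattice. -/
theorem exists_y (hm : m + 2 ≤ l) {p k : ℕ} (hp : p.Prime) (h2 : 2 < p)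
    (hk : p + (m + 2) = (l + 2) * k) : ∃ v y : Fk l, IsHW (fockRep l).rho (wt l m) v ∧
      ip v v = 1 ∧ Dg eng v = 0 ∧ y ∈ LM v ∧ Dg eng y = (k : ℂ) • y ∧
      (fockRep l).WtV (wt l (m + 2)) y ∧
      (∀ i a, 0 < a → dpow ((fockRep l).eg i) a y ∈ latt (fockRep l).rho v) ∧
      (p : ℂ) • y ∈ latt (fockRep l).rho v ∧ ip v y = 0 ∧ KZ.IsU p (p * ip y y) := by
  let r : Fin l := ⟨l - 1, by omega⟩
  have hr : l ≤ r.val + (m + 1) := by simp only [r]; omega
  have hm' : m + 1 ≤ l := by omega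
  have hJ : ∀ s n, Stab (Lam hp (ZZ r m true 0)) (JF l s n) := by
    rintro s n x ⟨N, h, hx⟩
    exact ⟨N, h, by rw [← map_smul]; exact good_J (latt_good _ _) s n _ hx⟩
  have hh : ∀ x ∈ Lam hp (ZZ r m true 0), (1 / 2 : ℂ) • x ∈ Lam hp (ZZ r m true 0) := by
    simpa using Lam_div hp (ZZ r m true 0) (d := 2) (by norm_num) h2
  have h1 := all_mem hm hJ hh ⟨1, hp.not_dvd_one, by simpa using self_mem_latt _ _⟩ k
    fun d h0 h1 => Lam_div hp _ h0 (by omega)
  obtain ⟨u, hu⟩ := exists_pr (r := r) hm false k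
  have e : ((l : ℂ) + 2) * k - (m + 2) = p := by
    have := congrArg (Nat.cast : ℕ → ℂ) hk
    push_cast at this
    linear_combination -this
  obtain ⟨w, ⟨N1, n1, hw⟩, hw'⟩ := step_T hm' hJ hh k h1
  rw [e] at hw'
  rw [hw'.unique (hu.smul p)] at hw
  obtain ⟨w2, ⟨N2, n2, hw2⟩, hw2'⟩ := h1 true (k - 1) (by omega)
  have f1 : JF l false 1 u = -w2 := by
    have := hu.J false 1
    rw [F_T le_rfl] at this
    exact this.unique hw2'.neg
  have f2 : JF l false 1 w2 = 0 := by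
    have := hw2'.J false 1
    rw [F_A le_rfl] at this
    exact this.unique (IsPr.self (zero_mem _))
  have f3 : JF l true 0 u = 0 := by
    have := hu.J true 0
    rw [E_T le_rfl] at this
    exact this.unique (IsPr.self (zero_mem _))
  have f4 : HF l 0 u = ((m : ℂ) + 2) • u := by
    have := hu.H 0
    rw [H0_T hm'] at this
    exact this.unique (hu.smul _)
  have f5 : Dg eng u = (k : ℂ) • u := by
    have := hu.op (adj_Dg eng) (fun _ hx => LM_Dg (hw_A hm') (cas_A hm') hx)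
      fun _ hx => LM_Dg (hw_A hm') (cas_A hm') hx
    rw [eng_Z] at this
    exact this.unique (hu.smul _)
  have f6 : ip (ZZ r m true 0) u = 0 := by
    have a1 : Adj (HF l 0) (HF l 0) := by simpa using adj_HF (l := l) 0
    have := a1 (ZZ r m true 0) u
    rw [H0_A hm', f4, ip_smul_left, ip_smul_right, map_natCast] at this
    linear_combination (-1 / 2) * this
  refine ⟨ZZ r m true 0, ((N1 * N2 : ℕ) : ℂ) • u, hw_A hm', ip_A hr, by simpa using eng_Z true 0,
    Submodule.smul_mem _ _ hu.1, by rw [map_smul, f5, smul_comm], fun i => ?_, fun i a ha => ?_,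
    ?_, by rw [ip_smul_right, f6, mul_zero], ?_⟩
  · fin_cases i
    · refine (hg0_apply _).trans ?_
      rw [map_smul, f4]
      simp only [wt, Fin.zero_eta, Matrix.cons_val_zero]
      push_cast
      module
    · change HF l 0 _ = _
      rw [map_smul, f4]
      simp only [wt, Fin.mk_one, Matrix.cons_val_one, Matrix.cons_val_zero]
      push_cast
      module
  · obtain ⟨a, rfl⟩ : ∃ b, a = b + 1 := ⟨a - 1, by omega⟩
    rw [dpow, LinearMap.smul_apply, pow_succ, Module.End.mul_apply]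
    fin_cases i
    · change _ • (JF l false 1 ^ a) (JF l false 1 _) ∈ _
      rw [map_smul, f1]
      cases a with
      | zero =>
        have : ((N1 * N2 : ℕ) : ℂ) • -w2 = -((N1 : ℂ) • (N2 : ℂ) • w2) := by
          push_cast
          module
        rw [this]
        simpa using nat_smul_mem hw2 N1
      | succ a =>
        rw [pow_succ, Module.End.mul_apply, map_smul, map_neg, f2]
        simp
    · change _ • (JF l true 0 ^ a) (JF l true 0 _) ∈ _
      rw [map_smul, f3]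
      simp
  · have : (p : ℂ) • ((N1 * N2 : ℕ) : ℂ) • u = (N2 : ℂ) • (N1 : ℂ) • (p : ℂ) • u := by
      push_cast
      module
    rw [this]
    exact nat_smul_mem hw _
  · have h3 := nr_unit hm hr hp h2 hk
    rw [hu.nr_eq] at h3
    have h4 : ¬ (p : ℤ) ∣ ((N1 * N2 : ℕ) : ℤ) := by exact_mod_cast hp.not_dvd_mul n1 n2
    have hP := Nat.prime_iff_prime_int.1 hp
    refine h3.step hp (d := ((N1 * N2 : ℕ) : ℤ) * (N1 * N2 : ℕ)) (d' := 1) (hP.not_dvd_mul h4 h4)
      hP.not_dvd_one ?_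
    rw [ip_smul_left, ip_smul_right, map_natCast]
    push_cast
    ring

end Pool.Agent.Lib.MP_b2f51a_al.Lv
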